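import Mathlib

set_option autoImplicit false

namespace Pool.Agent.H62

open CategoryTheory Abelian

universe u

variable {R : Type u} [CommRing R]

/-- A short exact sequence of modules as a short exact sequence in the category. -/
theorem shortExact_of {A B C : Type u} [AddCommGroup A] [AddCommGroup B] [AddCommGroup C]
    [Module R A] [Module R B] [Module R C] (f : A →ₗ[R] B) (g : B →ₗ[R] C)
    (hf : Function.Injective f) (hg : Function.Surjective g) (hfg : Function.Exact f g) :
    (ShortComplex.mk (ModuleCat.ofHom f) (ModuleCat.ofHom g)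
      (by rw [← ModuleCat.ofHom_comp, hfg.linearMap_comp_eq_zero]; rfl)).ShortExact :=
  ModuleCat.shortComplex_shortExact _ hfg hf hg

/-- Projective dimension less than `n`, for modules. -/
abbrev PdLT (R : Type u) [CommRing R] (M : Type u) [AddCommGroup M] [Module R M] (n : ℕ) : Prop :=
  HasProjectiveDimensionLT (ModuleCat.of R M) n

theorem PdLT.of_equiv {M N : Type u} [AddCommGroup M] [Module R M] [AddCommGroup N] [Module R N]
    (e : M ≃ₗ[R] N) {n : ℕ} (h : PdLT R M n) : PdLT R N n :=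
  hasProjectiveDimensionLT_of_iso e.toModuleIso n

theorem PdLT.mono {M : Type u} [AddCommGroup M] [Module R M] {n m : ℕ} (h : PdLT R M n)
    (hnm : n ≤ m) : PdLT R M m :=
  hasProjectiveDimensionLT_of_ge _ n m hnm

theorem PdLT.of_subsingleton {M : Type u} [AddCommGroup M] [Module R M] [Subsingleton M] (n : ℕ) :
    PdLT R M n := by
  have : PdLT R M 0 := (ModuleCat.isZero_of_subsingleton (ModuleCat.of R M)).hasProjectiveDimensionLT_zero
  exact this.mono (Nat.zero_le n)

theorem pdLT_self : PdLT R R 1 := by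
  have : Projective (ModuleCat.of R R) := by
    rw [← IsProjective.iff_projective]
    infer_instance
  infer_instance

section SES

variable {A B C : Type u} [AddCommGroup A] [AddCommGroup B] [AddCommGroup C]
    [Module R A] [Module R B] [Module R C] {f : A →ₗ[R] B} {g : B →ₗ[R] C}
    (hf : Function.Injective f) (hg : Function.Surjective g) (hfg : Function.Exact f g)

include hf hg hfg

theorem PdLT.mid {n : ℕ} (hA : PdLT R A n) (hC : PdLT R C n) : PdLT R B n :=
  (shortExact_of f g hf hg hfg).hasProjectiveDimensionLT_X₂ n hA hC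

theorem PdLT.right {n : ℕ} (hA : PdLT R A n) (hB : PdLT R B (n + 1)) : PdLT R C (n + 1) :=
  (shortExact_of f g hf hg hfg).hasProjectiveDimensionLT_X₃ n hA hB

theorem PdLT.left {n : ℕ} (hB : PdLT R B n) (hC : PdLT R C (n + 1)) : PdLT R A n :=
  (shortExact_of f g hf hg hfg).hasProjectiveDimensionLT_X₁ n hB hC

end SES

theorem PdLT.prod {A B : Type u} [AddCommGroup A] [AddCommGroup B] [Module R A] [Module R B]
    {n : ℕ} (hA : PdLT R A n) (hB : PdLT R B n) : PdLT R (A × B) n :=
  PdLT.mid (f := LinearMap.inl R A B) (g := LinearMap.snd R A B) LinearMap.inl_injective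
    LinearMap.snd_surjective Function.Exact.inl_snd hA hB

section colon

theorem mem_subOf {A B : Ideal R} {x : ↥B} : x ∈ A.submoduleOf B ↔ (x : R) ∈ A := Iff.rfl

variable (J : Ideal R) (f : R)

/-- The quotient of `J + (f)` by `J` is `R / (J : f)`. -/
noncomputable def colonEquiv :
    (R ⧸ J.colon {f}) ≃ₗ[R] (↥(J ⊔ Ideal.span {f}) ⧸ (J.submoduleOf (J ⊔ Ideal.span {f}))) := by
  let b : ↥(J ⊔ Ideal.span {f}) := ⟨f, Submodule.mem_sup_right (Ideal.mem_span_singleton_self f)⟩
  let φ : R →ₗ[R] (↥(J ⊔ Ideal.span {f}) ⧸ (J.submoduleOf (J ⊔ Ideal.span {f}))) :=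
    (J.submoduleOf (J ⊔ Ideal.span {f})).mkQ.comp (LinearMap.toSpanSingleton R _ b)
  have hker : LinearMap.ker φ = J.colon {f} := by
    ext r
    rw [LinearMap.mem_ker, Submodule.mem_colon_singleton]
    simp only [φ, LinearMap.comp_apply, LinearMap.toSpanSingleton_apply, Submodule.mkQ_apply]
    rw [Submodule.Quotient.mk_eq_zero, mem_subOf]
    simp only [b, SetLike.val_smul]
  have hsurj : Function.Surjective φ := by
    intro q
    obtain ⟨⟨c, hc⟩, rfl⟩ := Submodule.Quotient.mk_surjective _ q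
    obtain ⟨j, hj, y, hy, hjy⟩ := Submodule.mem_sup.1 hc
    obtain ⟨r, rfl⟩ := Ideal.mem_span_singleton'.1 hy
    refine ⟨r, ?_⟩
    simp only [φ, LinearMap.comp_apply, LinearMap.toSpanSingleton_apply, Submodule.mkQ_apply]
    rw [Submodule.Quotient.eq, mem_subOf]
    have : ((r • b - ⟨c, hc⟩ : ↥(J ⊔ Ideal.span {f})) : R) = -j := by
      simp only [b, AddSubgroupClass.coe_sub, SetLike.val_smul, smul_eq_mul]
      rw [← hjy]
      ring
    show ((r • b - ⟨c, hc⟩ : ↥(J ⊔ Ideal.span {f})) : R) ∈ J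
    rw [this]
    exact J.neg_mem hj
  exact (Submodule.quotEquivOfEq _ _ hker.symm).trans (φ.quotKerEquivOfSurjective hsurj)

theorem submoduleOf_exact {A B : Ideal R} (h : A ≤ B) :
    Function.Exact (Submodule.inclusion h) (A.submoduleOf B).mkQ := by
  rw [LinearMap.exact_iff]
  rw [Submodule.ker_mkQ]
  ext x
  rw [mem_subOf, LinearMap.mem_range]
  constructor
  · intro hx
    exact ⟨⟨x, hx⟩, rfl⟩
  · rintro ⟨y, rfl⟩
    exact y.2

variable {J f}

theorem pdLT_sup {n : ℕ} (hJ : PdLT R J n) (hC : PdLT R (R ⧸ J.colon {f}) n) :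
    PdLT R ↥(J ⊔ Ideal.span {f}) n :=
  PdLT.mid (Submodule.inclusion_injective (le_sup_left : J ≤ J ⊔ Ideal.span {f}))
    (Submodule.mkQ_surjective _) (submoduleOf_exact _) hJ (hC.of_equiv (colonEquiv J f))

theorem pdLT_of_sup {n : ℕ} (hJ : PdLT R ↥(J ⊔ Ideal.span {f}) n)
    (hC : PdLT R (R ⧸ J.colon {f}) (n + 1)) : PdLT R J n :=
  PdLT.left (Submodule.inclusion_injective (le_sup_left : J ≤ J ⊔ Ideal.span {f}))
    (Submodule.mkQ_surjective _) (submoduleOf_exact _) hJ (hC.of_equiv (colonEquiv J f))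

theorem pdLT_colon {n : ℕ} (hJ : PdLT R J n) (hJf : PdLT R ↥(J ⊔ Ideal.span {f}) (n + 1)) :
    PdLT R (R ⧸ J.colon {f}) (n + 1) :=
  (PdLT.right (Submodule.inclusion_injective (le_sup_left : J ≤ J ⊔ Ideal.span {f}))
    (Submodule.mkQ_surjective _) (submoduleOf_exact _) hJ hJf).of_equiv (colonEquiv J f).symm

end colon

theorem ideal_exact (I : Ideal R) : Function.Exact I.subtype I.mkQ := by
  rw [LinearMap.exact_iff, Submodule.ker_mkQ, Submodule.range_subtype]

theorem pdLT_quot {I : Ideal R} {n : ℕ} (hn : 1 ≤ n) (hI : PdLT R I n) : PdLT R (R ⧸ I) (n + 1) :=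
  PdLT.right (f := I.subtype) (g := I.mkQ) Subtype.val_injective (Submodule.mkQ_surjective _)
    (ideal_exact I) hI (pdLT_self.mono (by omega))

end Pool.Agent.H62
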