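import Mathlib
import Pool.Agent.H62.Hom

set_option autoImplicit false

namespace Pool.Agent.H62

open CategoryTheory Abelian

universe u

variable {R : Type u} [CommRing R]

section reg

variable (I : Ideal R) (z : R)

theorem quot_smul_exact :
    Function.Exact (LinearMap.lsmul R (R ⧸ I) z)
      (Submodule.mapQ I (I ⊔ Ideal.span {z}) LinearMap.id (by
        rw [Submodule.comap_id]; exact le_sup_left)) := by
  rw [LinearMap.exact_iff]
  ext q
  obtain ⟨r, rfl⟩ := Submodule.Quotient.mk_surjective _ q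
  rw [LinearMap.mem_ker, Submodule.mapQ_apply, LinearMap.id_apply, Submodule.Quotient.mk_eq_zero,
    LinearMap.mem_range]
  constructor
  · intro h
    obtain ⟨j, hj, y, hy, hjy⟩ := Submodule.mem_sup.1 h
    obtain ⟨s, rfl⟩ := Ideal.mem_span_singleton'.1 hy
    refine ⟨Submodule.Quotient.mk s, ?_⟩
    rw [LinearMap.lsmul_apply, ← Submodule.Quotient.mk_smul, Submodule.Quotient.eq]
    have : z • s - r = -j := by rw [← hjy, smul_eq_mul]; ring
    rw [this]
    exact I.neg_mem hj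
  · rintro ⟨q', hq'⟩
    obtain ⟨s, rfl⟩ := Submodule.Quotient.mk_surjective _ q'
    rw [LinearMap.lsmul_apply, ← Submodule.Quotient.mk_smul, Submodule.Quotient.eq] at hq'
    have : r = -(z • s - r) + z * s := by rw [smul_eq_mul]; ring
    rw [this]
    exact Submodule.add_mem _ (Submodule.mem_sup_left (I.neg_mem hq'))
      (Submodule.mem_sup_right (Ideal.mul_mem_right _ _ (Ideal.mem_span_singleton_self z)))

theorem quot_mapQ_surj :
    Function.Surjective (Submodule.mapQ I (I ⊔ Ideal.span {z}) LinearMap.id (by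
        rw [Submodule.comap_id]; exact le_sup_left)) := by
  intro q
  obtain ⟨r, rfl⟩ := Submodule.Quotient.mk_surjective _ q
  exact ⟨Submodule.Quotient.mk r, rfl⟩

variable {I z}

theorem quot_smul_inj (hz : ∀ r, z * r ∈ I → r ∈ I) :
    Function.Injective (LinearMap.lsmul R (R ⧸ I) z) := by
  rw [← LinearMap.ker_eq_bot, LinearMap.ker_eq_bot']
  intro q hq
  obtain ⟨r, rfl⟩ := Submodule.Quotient.mk_surjective _ q
  rw [LinearMap.lsmul_apply, ← Submodule.Quotient.mk_smul, Submodule.Quotient.mk_eq_zero] at hq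
  rw [Submodule.Quotient.mk_eq_zero]
  exact hz r hq

theorem pdLT_quot_reg {n : ℕ} (hz : ∀ r, z * r ∈ I → r ∈ I) (h : PdLT R (R ⧸ I) n) :
    PdLT R (R ⧸ (I ⊔ Ideal.span {z})) (n + 1) :=
  PdLT.right (quot_smul_inj hz) (quot_mapQ_surj I z) (quot_smul_exact I z) h (h.mono (by omega))

end reg

section NZ

/-- `Ext^n(M, L)` is nonzero. -/
def NZ (L : ModuleCat.{u} R) (M : Type u) [AddCommGroup M] [Module R M] (n : ℕ) : Prop :=
  ∃ x : Ext (ModuleCat.of R M) L n, x ≠ 0

variable {L : ModuleCat.{u} R}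

theorem NZ.lt {M : Type u} [AddCommGroup M] [Module R M] {n m : ℕ} (h : NZ L M n)
    (hm : PdLT R M m) : n < m := by
  by_contra hlt
  obtain ⟨x, hx⟩ := h
  exact hx (x.eq_zero_of_hasProjectiveDimensionLT m (not_lt.1 hlt))

theorem smul_ext_zero {r : R} (hr : ∀ l : L, r • l = 0) {M : ModuleCat.{u} R} {n : ℕ}
    (x : Ext M L n) : r • x = 0 := by
  rw [Ext.smul_eq_comp_mk₀]
  have : r • 𝟙 L = 0 := by
    ext l
    exact hr l
  rw [this, Ext.mk₀_zero, Ext.comp_zero]

variable {A B C : Type u} [AddCommGroup A] [AddCommGroup B] [AddCommGroup C]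
    [Module R A] [Module R B] [Module R C] {f : A →ₗ[R] B} {g : B →ₗ[R] C}

theorem NZ.connect (hf : Function.Injective f) (hg : Function.Surjective g)
    (hfg : Function.Exact f g) {n : ℕ} (h : NZ L A n)
    (h0 : ∀ x : Ext (ModuleCat.of R B) L n, (Ext.mk₀ (ModuleCat.ofHom f)).comp x (zero_add n) = 0) :
    NZ L C (n + 1) := by
  obtain ⟨x, hx⟩ := h
  have hS := shortExact_of f g hf hg hfg
  refine ⟨hS.extClass.comp x (add_comm 1 n), ?_⟩
  intro hzero
  obtain ⟨x₂, hx₂⟩ := Ext.contravariant_sequence_exact₁ hS _ x (add_comm 1 n) hzero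
  apply hx
  rw [← hx₂]
  exact h0 x₂

theorem NZ.quot_reg {I : Ideal R} {z : R} {n : ℕ} (hz : ∀ r, z * r ∈ I → r ∈ I)
    (hL : ∀ l : L, z • l = 0) (h : NZ L (R ⧸ I) n) : NZ L (R ⧸ (I ⊔ Ideal.span {z})) (n + 1) := by
  refine NZ.connect (quot_smul_inj hz) (quot_mapQ_surj I z) (quot_smul_exact I z) h ?_
  intro x
  have : ModuleCat.ofHom (LinearMap.lsmul R (R ⧸ I) z) = z • 𝟙 (ModuleCat.of R (R ⧸ I)) := by
    ext
    rfl
  rw [this, Ext.mk₀_smul, Ext.smul_comp, Ext.mk₀_id_comp]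
  exact smul_ext_zero hL x

theorem NZ.quot {I : Ideal R} {n : ℕ} (hn : 1 ≤ n) (h : NZ L I n) : NZ L (R ⧸ I) (n + 1) := by
  refine NZ.connect (f := I.subtype) (g := I.mkQ) Subtype.val_injective
    (Submodule.mkQ_surjective _) (ideal_exact I) h ?_
  intro x
  have := pdLT_self (R := R)
  rw [x.eq_zero_of_hasProjectiveDimensionLT 1 hn, Ext.comp_zero]

theorem NZ.of_equiv {M N : Type u} [AddCommGroup M] [Module R M] [AddCommGroup N] [Module R N]
    (e : M ≃ₗ[R] N) {n : ℕ} (h : NZ L M n) : NZ L N n := by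
  obtain ⟨x, hx⟩ := h
  refine ⟨(Ext.mk₀ e.toModuleIso.inv).comp x (zero_add n), ?_⟩
  intro h0
  apply hx
  have : (Ext.mk₀ e.toModuleIso.hom).comp ((Ext.mk₀ e.toModuleIso.inv).comp x (zero_add n))
      (zero_add n) = x := by
    rw [Ext.mk₀_comp_mk₀_assoc, Iso.hom_inv_id, Ext.mk₀_id_comp]
  rw [← this, h0, Ext.comp_zero]

theorem NZ.zero_self (h : ∃ l : L, l ≠ 0) : NZ L R 0 := by
  obtain ⟨l, hl⟩ := h
  refine ⟨Ext.mk₀ (ModuleCat.ofHom (LinearMap.toSpanSingleton R L l)), ?_⟩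
  intro h0
  have h1 : ModuleCat.ofHom (LinearMap.toSpanSingleton R L l) = 0 := by
    apply (Ext.mk₀_bijective _ _).1
    rw [h0, Ext.mk₀_zero]
  apply hl
  have h2 := congrArg (fun φ => (ModuleCat.Hom.hom φ) (1 : R)) h1
  simpa using h2

end NZ

section koszul

variable (q : Ideal R) (x y : R)

/-- first map -/
noncomputable def kosF : q →ₗ[R] q × q :=
  LinearMap.prod (y • LinearMap.id) (-(x • LinearMap.id))

/-- second map -/
noncomputable def kosG : q × q →ₗ[R] ↥(q * Ideal.span {x, y}) :=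
  LinearMap.codRestrict _ (x • (q.subtype.comp (LinearMap.fst R q q)) +
    y • (q.subtype.comp (LinearMap.snd R q q))) (by
      intro c
      simp only [LinearMap.add_apply, LinearMap.smul_apply, LinearMap.comp_apply,
        LinearMap.fst_apply, LinearMap.snd_apply, Submodule.subtype_apply, smul_eq_mul]
      refine Ideal.add_mem _ ?_ ?_
      · have := Ideal.mul_mem_mul c.1.2 (Ideal.subset_span (by simp) : x ∈ Ideal.span {x, y})
        rwa [mul_comm (c.1 : R) x] at this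
      · have := Ideal.mul_mem_mul c.2.2 (Ideal.subset_span (by simp) : y ∈ Ideal.span {x, y})
        rwa [mul_comm (c.2 : R) y] at this)

theorem kosG_apply (c : q × q) : ((kosG q x y c : ↥(q * Ideal.span {x, y})) : R) =
    x * (c.1 : R) + y * (c.2 : R) := rfl

theorem kosG_surj : Function.Surjective (kosG q x y) := by
  rintro ⟨r, hr⟩
  have : ∃ a ∈ q, ∃ b ∈ q, x * a + y * b = r := by
    rw [Ideal.span_insert, Ideal.mul_sup] at hr
    obtain ⟨u, hu, v, hv, huv⟩ := Submodule.mem_sup.1 hr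
    obtain ⟨a, ha, ha'⟩ := Ideal.mem_mul_span_singleton.1 hu
    obtain ⟨b, hb, hb'⟩ := Ideal.mem_mul_span_singleton.1 hv
    exact ⟨a, ha, b, hb, by rw [← huv, ← ha', ← hb']; ring⟩
  obtain ⟨a, ha, b, hb, hab⟩ := this
  refine ⟨(⟨a, ha⟩, ⟨b, hb⟩), ?_⟩
  apply Subtype.ext
  rw [kosG_apply]
  exact hab

variable {q x y}

theorem kosF_inj (hy : ∀ r, y * r = 0 → r = 0) : Function.Injective (kosF q x y) := by
  rw [← LinearMap.ker_eq_bot, LinearMap.ker_eq_bot']
  intro c hc
  have h1 : y • c = 0 := congrArg Prod.fst hc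
  apply Subtype.ext
  apply hy
  have := congrArg Subtype.val h1
  simpa using this

theorem kos_exact (hq : ∀ a ∈ q, ∀ b ∈ q, x * a + y * b = 0 → ∃ h ∈ q, a = y * h ∧ b = -(x * h)) :
    Function.Exact (kosF q x y) (kosG q x y) := by
  intro c
  constructor
  · intro hc
    have h1 : x * (c.1 : R) + y * (c.2 : R) = 0 := by
      rw [← kosG_apply, hc]; rfl
    obtain ⟨h, hh, h2, h3⟩ := hq _ c.1.2 _ c.2.2 h1
    refine ⟨⟨h, hh⟩, ?_⟩
    apply Prod.ext
    · apply Subtype.ext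
      exact h2.symm
    · apply Subtype.ext
      exact h3.symm
  · rintro ⟨h, rfl⟩
    apply Subtype.ext
    rw [kosG_apply]
    show x * (y * (h : R)) + y * (-(x * (h : R))) = 0
    ring

variable (hy : ∀ r, y * r = 0 → r = 0)
    (hq : ∀ a ∈ q, ∀ b ∈ q, x * a + y * b = 0 → ∃ h ∈ q, a = y * h ∧ b = -(x * h))
include hy hq

theorem pdLT_kos {n : ℕ} (h : PdLT R q n) : PdLT R ↥(q * Ideal.span {x, y}) (n + 1) :=
  PdLT.right (kosF_inj hy) (kosG_surj q x y) (kos_exact hq) h ((h.prod h).mono (by omega))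

theorem NZ.kos {L : ModuleCat.{u} R} (hLx : ∀ l : L, x • l = 0) (hLy : ∀ l : L, y • l = 0)
    {n : ℕ} (h : NZ L q n) : NZ L ↥(q * Ideal.span {x, y}) (n + 1) := by
  refine NZ.connect (kosF_inj hy) (kosG_surj q x y) (kos_exact hq) h ?_
  intro e
  have : ModuleCat.ofHom (kosF q x y) =
      y • ModuleCat.ofHom (LinearMap.inl R q q) - x • ModuleCat.ofHom (LinearMap.inr R q q) := by
    ext c
    · simp [kosF]
    · simp [kosF]
  rw [this, sub_eq_add_neg, Ext.mk₀_add, Ext.add_comp, Ext.mk₀_neg, Ext.neg_comp, Ext.mk₀_smul,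
    Ext.mk₀_smul, Ext.smul_comp, Ext.smul_comp, smul_ext_zero hLx, smul_ext_zero hLy]
  simp

end koszul

end Pool.Agent.H62
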