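import Mathlib

set_option autoImplicit false

namespace Pool.Agent.H62

open MvPolynomial
open scoped Pointwise

variable {σ : Type*} {k : Type*} [Field k]

/-- The monomial ideal spanned by the monomials with exponents in `C`. -/
noncomputable def mono (k : Type*) [Field k] (C : Set (σ →₀ ℕ)) : Ideal (MvPolynomial σ k) :=
  Ideal.span ((fun m => monomial m (1 : k)) '' C)

theorem mem_mono {C : Set (σ →₀ ℕ)} (hC : IsUpperSet C) {f : MvPolynomial σ k} :
    f ∈ mono k C ↔ ∀ a ∈ f.support, a ∈ C := by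
  rw [mono, mem_ideal_span_monomial_image]
  constructor
  · intro h a ha
    obtain ⟨s, hs, hsa⟩ := h a ha
    exact hC hsa hs
  · intro h a ha
    exact ⟨a, h a ha, le_refl _⟩

theorem monomial_mem_mono {C : Set (σ →₀ ℕ)} (hC : IsUpperSet C) {a : σ →₀ ℕ} :
    monomial a (1 : k) ∈ mono k C ↔ a ∈ C := by
  classical
  rw [mem_mono hC]
  simp [support_monomial]

theorem mono_mono {C D : Set (σ →₀ ℕ)} (h : C ⊆ D) : mono k C ≤ mono k D :=
  Ideal.span_mono (Set.image_mono h)

theorem mono_le_iff {C D : Set (σ →₀ ℕ)} (hD : IsUpperSet D) : mono k C ≤ mono k D ↔ C ⊆ D := by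
  constructor
  · intro h a ha
    have : monomial a (1 : k) ∈ mono k C := Ideal.subset_span ⟨a, ha, rfl⟩
    exact (monomial_mem_mono hD).1 (h this)
  · exact mono_mono

theorem mono_mul {C D : Set (σ →₀ ℕ)} : mono k C * mono k D = mono k (C + D) := by
  rw [mono, mono, mono, Ideal.span_mul_span']
  congr 1
  ext f
  constructor
  · rintro ⟨_, ⟨a, ha, rfl⟩, _, ⟨b, hb, rfl⟩, rfl⟩
    exact ⟨a + b, ⟨a, ha, b, hb, rfl⟩, by simp [monomial_mul]⟩
  · rintro ⟨_, ⟨a, ha, b, hb, rfl⟩, rfl⟩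
    exact ⟨_, ⟨a, ha, rfl⟩, _, ⟨b, hb, rfl⟩, by simp [monomial_mul]⟩

theorem mono_sup {C D : Set (σ →₀ ℕ)} : mono k C ⊔ mono k D = mono k (C ∪ D) := by
  rw [mono, mono, mono, Set.image_union, Ideal.span_union]

theorem mono_iInf {ι : Type*} {C : ι → Set (σ →₀ ℕ)} (hC : ∀ i, IsUpperSet (C i)) :
    (⨅ i, mono k (C i)) = mono k (⋂ i, C i) := by
  ext f
  rw [mem_mono (isUpperSet_iInter hC), Ideal.mem_iInf]
  constructor
  · intro h a ha
    rw [Set.mem_iInter]
    intro i
    exact (mem_mono (hC i)).1 (h i) a ha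
  · intro h i
    rw [mem_mono (hC i)]
    intro a ha
    exact Set.mem_iInter.1 (h a ha) i

theorem mono_Ici (a : σ →₀ ℕ) : mono k (Set.Ici a) = Ideal.span {monomial a (1 : k)} := by
  apply le_antisymm
  · rw [mono, Ideal.span_le]
    rintro _ ⟨b, hb, rfl⟩
    rw [SetLike.mem_coe, Ideal.mem_span_singleton]
    refine ⟨monomial (b - a) 1, ?_⟩
    rw [monomial_mul, one_mul, add_tsub_cancel_of_le hb]
  · rw [Ideal.span_singleton_le_iff_mem]
    exact Ideal.subset_span ⟨a, Set.mem_Ici.2 le_rfl, rfl⟩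

theorem mono_univ : mono k (Set.univ : Set (σ →₀ ℕ)) = ⊤ := by
  rw [Ideal.eq_top_iff_one]
  exact Ideal.subset_span ⟨0, Set.mem_univ _, rfl⟩

theorem mem_mono_mul_monomial {C : Set (σ →₀ ℕ)} (hC : IsUpperSet C) {f : MvPolynomial σ k}
    {a : σ →₀ ℕ} :
    f * monomial a (1 : k) ∈ mono k C ↔ f ∈ mono k {v | v + a ∈ C} := by
  have hC' : IsUpperSet {v : σ →₀ ℕ | v + a ∈ C} := by
    intro v w hvw hv
    exact hC (add_le_add_left hvw a) hv
  rw [mem_mono hC, mem_mono hC']
  constructor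
  · intro h b hb
    apply h
    rw [mem_support_iff, coeff_mul_monomial, mul_one]
    exact mem_support_iff.1 hb
  · intro h b hb
    rw [mem_support_iff, coeff_mul_monomial'] at hb
    split_ifs at hb with hab
    · rw [mul_one] at hb
      have := h (b - a) (mem_support_iff.2 hb)
      simpa [tsub_add_cancel_of_le hab] using this
    · exact absurd rfl hb

theorem isUpperSet_shift {C : Set (σ →₀ ℕ)} (hC : IsUpperSet C) (a : σ →₀ ℕ) :
    IsUpperSet {v : σ →₀ ℕ | v + a ∈ C} := by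
  intro v w hvw hv
  exact hC (add_le_add_left hvw a) hv

theorem mono_colon {C : Set (σ →₀ ℕ)} (hC : IsUpperSet C) (a : σ →₀ ℕ) :
    (mono k C).colon {monomial a (1 : k)} = mono k {v | v + a ∈ C} := by
  ext f
  rw [Submodule.mem_colon_singleton, smul_eq_mul, mem_mono_mul_monomial hC]

end Pool.Agent.H62
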