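import Mathlib
import Pool.Agent.H62.Mono

set_option autoImplicit false

namespace Pool.Agent.H62

open MvPolynomial
open scoped Pointwise

variable {σ : Type*} {k : Type*} [Field k]

/-- The prime ideal generated by the variables in `S`. -/
noncomputable def PS (k : Type*) [Field k] (S : Set σ) : Ideal (MvPolynomial σ k) :=
  Ideal.span (X '' S)

theorem mem_PS {S : Set σ} {f : MvPolynomial σ k} :
    f ∈ PS k S ↔ ∀ a ∈ f.support, ∃ v ∈ S, a v ≠ 0 := by
  rw [PS, mem_ideal_span_X_image]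

/-- `C` depends only on the coordinates in `S`. -/
def DepOn (S : Set σ) (C : Set (σ →₀ ℕ)) : Prop :=
  ∀ a b : σ →₀ ℕ, (∀ v ∈ S, a v = b v) → a ∈ C → b ∈ C

section primary

open Classical in
/-- The part of `f` whose exponents satisfy `p`. -/
noncomputable def part (p : (σ →₀ ℕ) → Prop) (f : MvPolynomial σ k) : MvPolynomial σ k :=
  ∑ a ∈ f.support.filter p, monomial a (coeff a f)

open Classical in
theorem coeff_part (p : (σ →₀ ℕ) → Prop) (f : MvPolynomial σ k) (c : σ →₀ ℕ) :
    coeff c (part p f) = if p c then coeff c f else 0 := by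
  rw [part, coeff_sum]
  simp only [coeff_monomial]
  rw [Finset.sum_ite_eq']
  simp only [Finset.mem_filter, mem_support_iff]
  by_cases hp : p c
  · by_cases hc : coeff c f = 0
    · simp [hc]
    · simp [hp, hc]
  · simp [hp]

open Classical in
/-- The weight counting the degree in the variables of `S`. -/
noncomputable def wS (S : Set σ) : σ → ℕ := fun v => if v ∈ S then 1 else 0

theorem weight_eq_zero_iff {S : Set σ} {a : σ →₀ ℕ} :
    Finsupp.weight (wS S) a = 0 ↔ ∀ v ∈ S, a v = 0 := by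
  classical
  rw [Finsupp.weight_apply, Finsupp.sum, Finset.sum_eq_zero_iff]
  constructor
  · intro h v hv
    by_contra hne
    have := h v (Finsupp.mem_support_iff.2 hne)
    simp [wS, hv] at this
    exact hne this
  · intro h v _
    by_cases hv : v ∈ S
    · simp [h v hv]
    · simp [wS, hv]

theorem mono_primary {S : Set σ} {C : Set (σ →₀ ℕ)} (hC : IsUpperSet C) (hCS : DepOn S C)
    {u f : MvPolynomial σ k} (hu : u ∉ PS k S) (huf : u * f ∈ mono k C) : f ∈ mono k C := by
  classical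
  by_contra hf
  rw [mem_PS] at hu
  push Not at hu
  obtain ⟨a₀, ha₀, ha₀S⟩ := hu
  rw [mem_mono hC] at hf
  push Not at hf
  have hex : ∃ d, ∃ b ∈ f.support, b ∉ C ∧ Finsupp.weight (wS S) b = d := by
    obtain ⟨b, hb, hbC⟩ := hf
    exact ⟨_, b, hb, hbC, rfl⟩
  obtain ⟨b₀, hb₀, hb₀C, hb₀w⟩ := Nat.find_spec hex
  have hmin : ∀ b ∈ f.support, b ∉ C → Nat.find hex ≤ Finsupp.weight (wS S) b := by
    intro b hb hbC
    exact Nat.find_min' hex ⟨b, hb, hbC, rfl⟩
  set d := Nat.find hex with hd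
  set u0 := part (fun a => Finsupp.weight (wS S) a = 0) u with hu0
  set f0 := part (fun b => b ∉ C ∧ Finsupp.weight (wS S) b = d) f with hf0
  have hu0ne : u0 ≠ 0 := by
    intro h
    have := coeff_part (fun a => Finsupp.weight (wS S) a = 0) u a₀
    rw [← hu0, h, coeff_zero, if_pos (weight_eq_zero_iff.2 ha₀S)] at this
    exact (mem_support_iff.1 ha₀) this.symm
  have hf0ne : f0 ≠ 0 := by
    intro h
    have := coeff_part (fun b => b ∉ C ∧ Finsupp.weight (wS S) b = d) f b₀
    rw [← hf0, h, coeff_zero, if_pos ⟨hb₀C, hb₀w⟩] at this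
    exact (mem_support_iff.1 hb₀) this.symm
  have hne : u0 * f0 ≠ 0 := mul_ne_zero hu0ne hf0ne
  obtain ⟨c, hc⟩ := exists_coeff_ne_zero hne
  -- find a decomposition of c
  have hdec : ∃ a b, a + b = c ∧ coeff a u0 ≠ 0 ∧ coeff b f0 ≠ 0 := by
    by_contra hno
    push Not at hno
    apply hc
    rw [coeff_mul]
    apply Finset.sum_eq_zero
    rintro ⟨a, b⟩ hab
    rw [Finset.HasAntidiagonal.mem_antidiagonal] at hab
    by_cases ha : coeff a u0 = 0
    · simp [ha]
    · simp [hno a b hab ha]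
  obtain ⟨a, b, hab, ha, hb⟩ := hdec
  rw [hu0, coeff_part] at ha
  rw [hf0, coeff_part] at hb
  have ha1 : Finsupp.weight (wS S) a = 0 := by
    by_contra h; exact ha (if_neg h)
  have hb1 : b ∉ C ∧ Finsupp.weight (wS S) b = d := by
    by_contra h; exact hb (if_neg h)
  have hcb : ∀ v ∈ S, c v = b v := by
    intro v hv
    rw [← hab, Finsupp.add_apply, weight_eq_zero_iff.1 ha1 v hv, zero_add]
  have hcC : c ∉ C := fun h => hb1.1 (hCS c b hcb h)
  have hcw : Finsupp.weight (wS S) c = d := by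
    rw [← hab, map_add, ha1, hb1.2, zero_add]
  have hcoeff : coeff c (u * f) = coeff c (u0 * f0) := by
    rw [coeff_mul, coeff_mul]
    apply Finset.sum_congr rfl
    rintro ⟨a', b'⟩ hab'
    rw [Finset.HasAntidiagonal.mem_antidiagonal] at hab'
    simp only
    rw [hu0, hf0, coeff_part, coeff_part]
    by_cases hfb : coeff b' f = 0
    · simp [hfb]
    · have hb'C : b' ∉ C := by
        intro h
        apply hcC
        rw [← hab']
        exact hC (le_add_left le_rfl) h
      have h1 := hmin b' (mem_support_iff.2 hfb) hb'C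
      have h2 : Finsupp.weight (wS S) a' + Finsupp.weight (wS S) b' = d := by
        rw [← map_add]
        show Finsupp.weight (wS S) (a' + b') = d
        rw [show a' + b' = c from hab', hcw]
      rw [if_pos (by omega), if_pos ⟨hb'C, by omega⟩]
  have : c ∈ (u * f).support := by
    rw [mem_support_iff, hcoeff]
    exact hc
  exact hcC ((mem_mono hC).1 huf c this)

end primary

theorem PS_eq_mono (S : Set σ) : PS k S = mono k {a | ∃ v ∈ S, a v ≠ 0} := by
  have hU : IsUpperSet {a : σ →₀ ℕ | ∃ v ∈ S, a v ≠ 0} := by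
    rintro a b hab ⟨v, hv, hav⟩
    exact ⟨v, hv, fun h => hav (Nat.eq_zero_of_le_zero (h ▸ hab v))⟩
  ext f
  rw [mem_PS, mem_mono hU]
  rfl

theorem PS_prime (S : Set σ) : (PS k S).IsPrime := by
  have hU : IsUpperSet {a : σ →₀ ℕ | ∃ v ∈ S, a v ≠ 0} := by
    rintro a b hab ⟨v, hv, hav⟩
    exact ⟨v, hv, fun h => hav (Nat.eq_zero_of_le_zero (h ▸ hab v))⟩
  constructor
  · rw [Ideal.ne_top_iff_one, mem_PS]
    intro h
    obtain ⟨v, hv, h0⟩ := h 0 (by simp)
    exact h0 rfl
  · intro u f huf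
    by_cases hu : u ∈ PS k S
    · exact Or.inl hu
    · right
      rw [PS_eq_mono] at huf ⊢
      refine mono_primary hU ?_ hu huf
      rintro a b hab ⟨v, hv, hav⟩
      exact ⟨v, hv, fun h => hav (by rw [hab v hv, h])⟩

theorem X_mem_PS {S : Set σ} {v : σ} : (X v : MvPolynomial σ k) ∈ PS k S ↔ v ∈ S := by
  classical
  rw [mem_PS]
  constructor
  · intro h
    obtain ⟨w, hw, h1⟩ := h (Finsupp.single v 1) (by simp [mem_support_iff])
    rw [Finsupp.single_apply] at h1
    split_ifs at h1 with h2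
    · rwa [h2]
    · exact absurd rfl h1
  · intro hv a ha
    rw [support_X, Finset.mem_singleton] at ha
    exact ⟨v, hv, by simp [ha]⟩

section family

variable {ι : Type*} [Fintype ι] (S : ι → Set σ) (C : ι → Set (σ →₀ ℕ))
  (hSinc : ∀ i j, S i ⊆ S j → i = j) (hC : ∀ i, IsUpperSet (C i)) (hCS : ∀ i, DepOn (S i) (C i))
  (h0 : ∀ i, (0 : σ →₀ ℕ) ∉ C i) (hpow : ∀ i, ∀ v ∈ S i, ∃ N, Finsupp.single v N ∈ C i)

include hC hCS h0 in
omit [Fintype ι] in
theorem mono_le_PS (i : ι) : mono k (C i) ≤ PS k (S i) := by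
  intro f hf
  rw [mem_PS]
  intro a ha
  by_contra h
  push Not at h
  exact h0 i (hCS i a 0 (fun v hv => by simp [h v hv]) ((mem_mono (hC i)).1 hf a ha))

include hpow in
omit [Fintype ι] in
theorem PS_le_of_mono_le (i : ι) {P : Ideal (MvPolynomial σ k)} (hP : P.IsPrime)
    (h : mono k (C i) ≤ P) : PS k (S i) ≤ P := by
  rw [PS, Ideal.span_le]
  rintro _ ⟨v, hv, rfl⟩
  obtain ⟨N, hN⟩ := hpow i v hv
  have : (X v : MvPolynomial σ k) ^ N ∈ P := by
    apply h
    rw [X_pow_eq_monomial]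
    exact Ideal.subset_span ⟨_, hN, rfl⟩
  exact hP.mem_of_pow_mem N this

include hSinc hC hCS h0 hpow

theorem minimalPrimes_eq :
    (⨅ i, mono k (C i)).minimalPrimes = Set.range (fun i => PS k (S i)) := by
  classical
  have hkey : ∀ P : Ideal (MvPolynomial σ k), P.IsPrime → (⨅ i, mono k (C i)) ≤ P →
      ∃ i, PS k (S i) ≤ P := by
    intro P hP hQ
    have : (Finset.univ.inf fun i => mono k (C i)) ≤ P := by
      rwa [Finset.inf_univ_eq_iInf]
    obtain ⟨i, _, hi⟩ := (hP.inf_le').1 this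
    exact ⟨i, PS_le_of_mono_le S C hpow i hP hi⟩
  have hinj : ∀ i j, PS k (S i) ≤ PS k (S j) → i = j := by
    intro i j hij
    apply hSinc
    intro v hv
    rw [← X_mem_PS (k := k)]
    exact hij (X_mem_PS.2 hv)
  have hle : ∀ i, (⨅ i, mono k (C i)) ≤ PS k (S i) := fun i =>
    (iInf_le _ i).trans (mono_le_PS S C hC hCS h0 i)
  ext P
  rw [Set.mem_range]
  constructor
  · intro hP
    obtain ⟨i, hi⟩ := hkey P hP.1.1 hP.1.2
    exact ⟨i, le_antisymm hi (hP.2 ⟨PS_prime (S i), hle i⟩ hi)⟩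
  · rintro ⟨i, rfl⟩
    refine ⟨⟨PS_prime (S i), hle i⟩, ?_⟩
    rintro P' ⟨hP', hQ⟩ hP'i
    obtain ⟨j, hj⟩ := hkey P' hP' hQ
    have := hinj j i (hj.trans hP'i)
    rw [← this]
    exact hj

theorem symb_iff {t : ℕ} (D : ι → Set (σ →₀ ℕ)) (hD : ∀ i, mono k (C i) ^ t = mono k (D i))
    (hDU : ∀ i, IsUpperSet (D i)) (hDS : ∀ i, DepOn (S i) (D i)) (f : MvPolynomial σ k) :
    (∀ P ∈ (⨅ i, mono k (C i)).minimalPrimes, ∃ u : MvPolynomial σ k,
      u ∉ P ∧ u * f ∈ (⨅ i, mono k (C i)) ^ t) ↔ f ∈ ⨅ i, mono k (D i) := by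
  classical
  rw [minimalPrimes_eq S C hSinc hC hCS h0 hpow]
  rw [Ideal.mem_iInf]
  constructor
  · intro h i
    obtain ⟨u, hu, huf⟩ := h _ ⟨i, rfl⟩
    refine mono_primary (hDU i) (hDS i) hu ?_
    rw [← hD i]
    exact Ideal.pow_right_mono (iInf_le _ i) t huf
  · rintro h _ ⟨i, rfl⟩
    have hw : ∀ j, ∃ w : MvPolynomial σ k, j ≠ i → (w ∉ PS k (S i) ∧ w ∈ mono k (C j)) := by
      intro j
      by_cases hji : j = i
      · exact ⟨0, fun h => absurd hji h⟩
      · have : ¬ S j ⊆ S i := fun h => hji (hSinc j i h)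
        rw [Set.not_subset] at this
        obtain ⟨v, hvj, hvi⟩ := this
        obtain ⟨N, hN⟩ := hpow j v hvj
        refine ⟨X v ^ N, fun _ => ⟨?_, ?_⟩⟩
        · intro hmem
          exact hvi (X_mem_PS.1 ((PS_prime (S i)).mem_of_pow_mem N hmem))
        · rw [X_pow_eq_monomial]
          exact Ideal.subset_span ⟨_, hN, rfl⟩
    choose w hw using hw
    set W := ∏ j ∈ Finset.univ.erase i, w j with hW
    have hWP : W ∉ PS k (S i) := by
      intro hmem
      have := PS_prime (k := k) (S i)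
      rw [hW, Ideal.IsPrime.prod_mem_iff] at hmem
      obtain ⟨j, hj, hjm⟩ := hmem
      exact (hw j (Finset.ne_of_mem_erase hj)).1 hjm
    have hWC : ∀ j, j ≠ i → W ∈ mono k (C j) := by
      intro j hj
      have hj' : j ∈ Finset.univ.erase i := Finset.mem_erase.2 ⟨hj, Finset.mem_univ _⟩
      rw [hW, ← Finset.mul_prod_erase _ _ hj']
      exact Ideal.mul_mem_right _ _ (hw j hj).2
    have hle : Ideal.span {W} * mono k (C i) ≤ ⨅ i, mono k (C i) := by
      refine le_iInf fun j => ?_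
      by_cases hj : j = i
      · subst hj
        exact Ideal.mul_le_right
      · refine (Ideal.mul_le_left).trans ?_
        rw [Ideal.span_singleton_le_iff_mem]
        exact hWC j hj
    refine ⟨W ^ t, ?_, ?_⟩
    · intro hmem
      exact hWP ((PS_prime (S i)).mem_of_pow_mem t hmem)
    · have h1 : W ^ t * f ∈ (Ideal.span {W} * mono k (C i)) ^ t := by
        rw [mul_pow, Ideal.span_singleton_pow, hD i]
        exact Ideal.mul_mem_mul (Ideal.mem_span_singleton_self _) (h i)
      exact Ideal.pow_right_mono hle t h1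

end family

end Pool.Agent.H62
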