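import Mathlib
import Pool.Agent.H62.Hom2
import Pool.Agent.H62.Symb

set_option autoImplicit false

namespace Pool.Agent.H62

open MvPolynomial
open scoped Pointwise

universe u

section coord

variable {σ ι : Type*} [Finite σ] [Fintype ι] (e : σ ≃ (ι ⊕ ι) ⊕ Unit)

/-- x variables -/
def cx (i : ι) : σ := e.symm (Sum.inl (Sum.inl i))
/-- y variables -/
def cy (i : ι) : σ := e.symm (Sum.inl (Sum.inr i))
/-- z variable -/
def cz : σ := e.symm (Sum.inr ())

/-- exponent vector with given coordinates -/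
noncomputable def mk (f g : ι → ℕ) (n : ℕ) : σ →₀ ℕ :=
  Finsupp.equivFunOnFinite.symm (fun v => Sum.elim (Sum.elim f g) (fun _ => n) (e v))

omit [Fintype ι] in
@[simp] theorem mk_x (f g : ι → ℕ) (n : ℕ) (i : ι) : mk e f g n (cx e i) = f i := by
  simp [mk, cx]

omit [Fintype ι] in
@[simp] theorem mk_y (f g : ι → ℕ) (n : ℕ) (i : ι) : mk e f g n (cy e i) = g i := by
  simp [mk, cy]

omit [Fintype ι] in
@[simp] theorem mk_z (f g : ι → ℕ) (n : ℕ) : mk e f g n (cz e) = n := by
  simp [mk, cz]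

omit [Finite σ] [Fintype ι] in
theorem cx_inj {i j : ι} : cx e i = cx e j ↔ i = j := by simp [cx]
omit [Finite σ] [Fintype ι] in
theorem cy_inj {i j : ι} : cy e i = cy e j ↔ i = j := by simp [cy]
omit [Finite σ] [Fintype ι] in
theorem cx_ne_cy (i j : ι) : cx e i ≠ cy e j := by simp [cx, cy]
omit [Finite σ] [Fintype ι] in
theorem cx_ne_cz (i : ι) : cx e i ≠ cz e := by simp [cx, cz]
omit [Finite σ] [Fintype ι] in
theorem cy_ne_cz (i : ι) : cy e i ≠ cz e := by simp [cy, cz]

omit [Finite σ] [Fintype ι] in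
theorem coord_cases (v : σ) : (∃ i, v = cx e i) ∨ (∃ i, v = cy e i) ∨ v = cz e := by
  rcases h : e v with (i | i) | u
  · left; exact ⟨i, by rw [cx, ← h, e.symm_apply_apply]⟩
  · right; left; exact ⟨i, by rw [cy, ← h, e.symm_apply_apply]⟩
  · right; right; rw [cz, ← h, e.symm_apply_apply]

omit [Finite σ] [Fintype ι] in
theorem le_iff {u v : σ →₀ ℕ} : u ≤ v ↔ (∀ i, u (cx e i) ≤ v (cx e i)) ∧
    (∀ i, u (cy e i) ≤ v (cy e i)) ∧ u (cz e) ≤ v (cz e) := by
  constructor
  · intro h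
    exact ⟨fun i => h _, fun i => h _, h _⟩
  · rintro ⟨h1, h2, h3⟩ v
    rcases coord_cases e v with ⟨i, rfl⟩ | ⟨i, rfl⟩ | rfl
    · exact h1 i
    · exact h2 i
    · exact h3

variable [Nonempty ι]

/-- minimal y-exponent -/
noncomputable def ymin (u : σ →₀ ℕ) : ℕ :=
  Finset.univ.inf' Finset.univ_nonempty (fun j => u (cy e j))

omit [Finite σ] in
theorem ymin_le (u : σ →₀ ℕ) (j : ι) : ymin e u ≤ u (cy e j) :=
  Finset.inf'_le _ (Finset.mem_univ j)

omit [Finite σ] in
theorem le_ymin {u : σ →₀ ℕ} {n : ℕ} : n ≤ ymin e u ↔ ∀ j, n ≤ u (cy e j) := by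
  rw [ymin, Finset.le_inf'_iff]
  simp

omit [Finite σ] in
theorem ymin_mono {u v : σ →₀ ℕ} (h : u ≤ v) : ymin e u ≤ ymin e v := by
  rw [le_ymin]
  intro j
  exact (ymin_le e u j).trans (h _)

omit [Finite σ] in
theorem exists_ymin (u : σ →₀ ℕ) : ∃ j, u (cy e j) = ymin e u := by
  obtain ⟨j, _, hj⟩ := Finset.exists_mem_eq_inf' (Finset.univ_nonempty (α := ι))
    (fun j => u (cy e j))
  exact ⟨j, hj.symm⟩

theorem ymin_mk (f : ι → ℕ) (y n : ℕ) : ymin e (mk e f (fun _ => y) n) = y := by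
  obtain ⟨j, hj⟩ := exists_ymin e (mk e f (fun _ => y) n)
  rw [← hj, mk_y]

end coord

section ring

variable {σ : Type u} {k : Type u} [Field k]

/-- multiplication by a nonzero element -/
noncomputable def mulEquiv {R : Type u} [CommRing R] [IsDomain R] (q : Ideal R) {r : R} (hr : r ≠ 0) :
    q ≃ₗ[R] ↥(Ideal.span {r} * q) :=
  LinearEquiv.ofBijective
    (LinearMap.codRestrict (Ideal.span {r} * q) (r • q.subtype) (by
      intro a
      exact Ideal.mul_mem_mul (Ideal.mem_span_singleton_self r) a.2))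
    ⟨by
      rw [← LinearMap.ker_eq_bot, LinearMap.ker_eq_bot']
      intro a ha
      have h1 : r * (a : R) = 0 := congrArg Subtype.val ha
      apply Subtype.ext
      rcases mul_eq_zero.1 h1 with h | h
      · exact absurd h hr
      · exact h,
    by
      rintro ⟨b, hb⟩
      obtain ⟨a, ha, hab⟩ := Ideal.mem_span_singleton_mul.1 hb
      exact ⟨⟨a, ha⟩, Subtype.ext hab⟩⟩

theorem pdLT_span {R : Type u} [CommRing R] [IsDomain R] (r : R) : PdLT R ↥(Ideal.span {r}) 1 := by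
  by_cases hr : r = 0
  · have : Subsingleton ↥(Ideal.span {r}) := by
      rw [hr, Ideal.span_singleton_eq_bot.2 rfl]
      infer_instance
    exact PdLT.of_subsingleton 1
  · exact pdLT_self.of_equiv (LinearEquiv.toSpanNonzeroSingleton R R r hr)

theorem pdLT_quot_span {R : Type u} [CommRing R] [IsDomain R] (r : R) :
    PdLT R (R ⧸ Ideal.span {r}) 2 :=
  pdLT_quot le_rfl (pdLT_span r)

end ring

end Pool.Agent.H62
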