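import Mathlib
import Pool.Agent.H62.Coord

set_option autoImplicit false
set_option linter.unusedSectionVars false

namespace Pool.Agent.H62

open MvPolynomial
open scoped Pointwise

universe u

variable {σ ι k : Type u} [Finite σ] [Fintype ι] [DecidableEq ι] [Field k]
  (e : σ ≃ (ι ⊕ ι) ⊕ Unit)

/-- exponents in the product of the ideals `(x_i, y_i)`, `i ∈ V`. -/
def QV (V : Finset ι) : Set (σ →₀ ℕ) := {v | ∀ i ∈ V, 1 ≤ v (cx e i) ∨ 1 ≤ v (cy e i)}

omit [Finite σ] [Fintype ι] [DecidableEq ι] in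
theorem QV_upper (V : Finset ι) : IsUpperSet (QV e V) := by
  intro a b hab ha i hi
  rcases ha i hi with h | h
  · left; exact h.trans (hab _)
  · right; exact h.trans (hab _)

/-- the ideal -/
noncomputable def qV (k : Type u) [Field k] (V : Finset ι) : Ideal (MvPolynomial σ k) :=
  mono k (QV e V)

omit [Finite σ] [Fintype ι] [DecidableEq ι] in
theorem span_pair (v w : σ) : (Ideal.span {X v, X w} : Ideal (MvPolynomial σ k)) =
    mono k (Set.Ici (Finsupp.single v 1) ∪ Set.Ici (Finsupp.single w 1)) := by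
  rw [← mono_sup, mono_Ici, mono_Ici, Ideal.span_insert]
  rfl

omit [Finite σ] [Fintype ι] in
theorem qV_insert {V : Finset ι} {i : ι} (hi : i ∉ V) :
    qV e k (insert i V) = qV e k V * Ideal.span {X (cx e i), X (cy e i)} := by
  rw [span_pair, qV, qV, mono_mul]
  congr 1
  ext v
  constructor
  · intro hv
    rcases hv i (Finset.mem_insert_self i V) with h | h
    · refine ⟨v - Finsupp.single (cx e i) 1, ?_, Finsupp.single (cx e i) 1, Or.inl (Set.mem_Ici.2 le_rfl), ?_⟩
      · intro j hj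
        have hij : i ≠ j := fun hh => hi (hh ▸ hj)
        rw [Finsupp.tsub_apply, Finsupp.tsub_apply,
          Finsupp.single_eq_of_ne (fun hh => hij ((cx_inj e).1 hh).symm),
          Finsupp.single_eq_of_ne (fun hh => cx_ne_cy e i j hh.symm)]
        simpa using hv j (Finset.mem_insert_of_mem hj)
      · apply tsub_add_cancel_of_le
        rwa [Finsupp.single_le_iff]
    · refine ⟨v - Finsupp.single (cy e i) 1, ?_, Finsupp.single (cy e i) 1, Or.inr (Set.mem_Ici.2 le_rfl), ?_⟩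
      · intro j hj
        have hij : i ≠ j := fun hh => hi (hh ▸ hj)
        rw [Finsupp.tsub_apply, Finsupp.tsub_apply,
          Finsupp.single_eq_of_ne (fun hh => cx_ne_cy e j i hh),
          Finsupp.single_eq_of_ne (fun hh => hij ((cy_inj e).1 hh).symm)]
        simpa using hv j (Finset.mem_insert_of_mem hj)
      · apply tsub_add_cancel_of_le
        rwa [Finsupp.single_le_iff]
  · rintro ⟨a, ha, b, hb, rfl⟩ j hj
    rcases Finset.mem_insert.1 hj with rfl | hj
    · rcases hb with hb | hb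
      · left
        have := Finsupp.single_le_iff.1 (Set.mem_Ici.1 hb)
        simp only [Finsupp.add_apply]; omega
      · right
        have := Finsupp.single_le_iff.1 (Set.mem_Ici.1 hb)
        simp only [Finsupp.add_apply]; omega
    · rcases ha j hj with h | h
      · left; simp only [Finsupp.add_apply]; omega
      · right; simp only [Finsupp.add_apply]; omega

omit [Finite σ] [Fintype ι] [DecidableEq ι] in
theorem qV_empty : qV e k (∅ : Finset ι) = ⊤ := by
  rw [qV, show QV e (∅ : Finset ι) = Set.univ from ?_, mono_univ]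
  ext v
  simp [QV]

omit [Finite σ] [Fintype ι] [DecidableEq ι] in
theorem QV_dep (V : Finset ι) : DepOn {v | ∃ i ∈ V, v = cx e i ∨ v = cy e i} (QV e V) := by
  intro a b hab ha i hi
  rw [← hab (cx e i) ⟨i, hi, Or.inl rfl⟩, ← hab (cy e i) ⟨i, hi, Or.inr rfl⟩]
  exact ha i hi

omit [Finite σ] [Fintype ι] [DecidableEq ι] in
theorem qV_kos {V : Finset ι} {i : ι} (hi : i ∉ V) :
    ∀ a ∈ qV e k V, ∀ b ∈ qV e k V, X (cx e i) * a + X (cy e i) * b = 0 →
      ∃ h ∈ qV e k V, a = X (cy e i) * h ∧ b = -(X (cx e i) * h) := by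
  intro a ha b _ hab
  have hdvd : (X (cy e i) : MvPolynomial σ k) ∣ X (cx e i) * a := by
    refine ⟨-b, ?_⟩
    linear_combination hab
  have hprime : Prime (X (cy e i) : MvPolynomial σ k) := MvPolynomial.X_prime
  rcases hprime.dvd_or_dvd hdvd with h | h
  · exfalso
    have h1 : (X (cx e i) : MvPolynomial σ k) ∈ PS k ({cy e i} : Set σ) := by
      obtain ⟨c, hc⟩ := h
      rw [hc]
      exact Ideal.mul_mem_right _ _ (X_mem_PS.2 (Set.mem_singleton _))
    have h2 : cx e i ∈ ({cy e i} : Set σ) := X_mem_PS.1 h1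
    exact cx_ne_cy e i i (Set.mem_singleton_iff.1 h2)
  · obtain ⟨h, rfl⟩ := h
    refine ⟨h, ?_, rfl, ?_⟩
    · refine mono_primary (QV_upper e V) (QV_dep e V) ?_ ha
      rw [X_mem_PS]
      rintro ⟨j, hj, hj' | hj'⟩
      · exact cx_ne_cy e j i hj'.symm
      · rw [cy_inj] at hj'
        exact hi (hj' ▸ hj)
    · have hne : (X (cy e i) : MvPolynomial σ k) ≠ 0 := MvPolynomial.X_ne_zero _
      apply mul_left_cancel₀ hne
      linear_combination hab

omit [Finite σ] [Fintype ι] in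
theorem pdLT_qV (V : Finset ι) : PdLT (MvPolynomial σ k) (qV e k V) (V.card + 1) := by
  induction V using Finset.induction_on with
  | empty =>
    rw [qV_empty]
    exact pdLT_self.of_equiv Submodule.topEquiv.symm
  | insert i V hi ih =>
    rw [qV_insert e hi, Finset.card_insert_of_notMem hi]
    refine pdLT_kos ?_ (qV_kos e hi) ih
    intro r hr
    exact (mul_eq_zero.1 hr).resolve_left (MvPolynomial.X_ne_zero _)

omit [Finite σ] [Fintype ι] in
theorem NZ_qV {L : ModuleCat.{u} (MvPolynomial σ k)}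
    (hL : ∀ v : σ, ∀ l : L, (X v : MvPolynomial σ k) • l = 0) (hL0 : ∃ l : L, l ≠ 0)
    (V : Finset ι) : NZ L (qV e k V) V.card := by
  induction V using Finset.induction_on with
  | empty =>
    rw [qV_empty]
    exact (NZ.zero_self hL0).of_equiv Submodule.topEquiv.symm
  | insert i V hi ih =>
    rw [qV_insert e hi, Finset.card_insert_of_notMem hi]
    refine NZ.kos ?_ (qV_kos e hi) (hL _) (hL _) ih
    intro r hr
    exact (mul_eq_zero.1 hr).resolve_left (MvPolynomial.X_ne_zero _)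

/-- exponents: all `x_i`, `i ∈ W`, and `(x_i, y_i)`, `i ∈ V`. -/
def QWV (W V : Finset ι) : Set (σ →₀ ℕ) :=
  {v | (∀ i ∈ W, 1 ≤ v (cx e i)) ∧ ∀ i ∈ V, 1 ≤ v (cx e i) ∨ 1 ≤ v (cy e i)}

omit [Finite σ] [Fintype ι] [DecidableEq ι] in
theorem QWV_upper (W V : Finset ι) : IsUpperSet (QWV e W V) := by
  intro a b hab ha
  exact ⟨fun i hi => (ha.1 i hi).trans (hab _), QV_upper e V hab ha.2⟩

/-- exponent of the product of the `x_i`, `i ∈ W`. -/
noncomputable def eW (W : Finset ι) : σ →₀ ℕ := mk e (fun i => if i ∈ W then 1 else 0) (fun _ => 0) 0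

/-- exponent of the product of all the `y_i`. -/
noncomputable def eY : σ →₀ ℕ := mk e (fun _ => 0) (fun _ => 1) 0

omit [Fintype ι] in
theorem QWV_eq {W V : Finset ι} (hd : Disjoint W V) :
    Set.Ici (eW e W) + QV e V = QWV e W V := by
  ext v
  constructor
  · rintro ⟨a, ha, b, hb, rfl⟩
    refine ⟨?_, ?_⟩
    · intro i hi
      have := (Set.mem_Ici.1 ha) (cx e i)
      rw [eW, mk_x, if_pos hi] at this
      simp only [Finsupp.add_apply]; omega
    · intro i hi
      rcases hb i hi with h | h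
      · left; simp only [Finsupp.add_apply]; omega
      · right; simp only [Finsupp.add_apply]; omega
  · rintro ⟨h1, h2⟩
    have hle : eW e W ≤ v := by
      rw [le_iff e]
      refine ⟨?_, ?_, ?_⟩
      · intro i
        rw [eW, mk_x]
        split_ifs with hi
        · exact h1 i hi
        · exact Nat.zero_le _
      · intro i
        rw [eW, mk_y]
        exact Nat.zero_le _
      · rw [eW, mk_z]
        exact Nat.zero_le _
    refine ⟨eW e W, Set.mem_Ici.2 le_rfl, v - eW e W, ?_, add_tsub_cancel_of_le hle⟩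
    intro i hi
    have hiW : i ∉ W := fun h => (Finset.disjoint_left.1 hd) h hi
    rw [Finsupp.tsub_apply, Finsupp.tsub_apply, eW, mk_x, mk_y, if_neg hiW]
    simpa using h2 i hi

theorem pdLT_QWV {W V : Finset ι} (hd : Disjoint W V) :
    PdLT (MvPolynomial σ k) (mono k (QWV e W V)) (V.card + 1) := by
  rw [← QWV_eq e hd, ← mono_mul, mono_Ici]
  refine (pdLT_qV e V).of_equiv (mulEquiv _ ?_)
  rw [Ne, MvPolynomial.monomial_eq_zero]
  exact one_ne_zero

theorem colon_QWV {W V : Finset ι} :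
    {v : σ →₀ ℕ | v + eY e ∈ QWV e W V} = Set.Ici (eW e W) := by
  ext v
  rw [Set.mem_Ici, le_iff e]
  simp only [Set.mem_ofPred_eq, QWV, Finsupp.add_apply, eY, eW, mk_x, mk_y, mk_z, add_zero]
  constructor
  · rintro ⟨h1, _⟩
    refine ⟨?_, fun _ => Nat.zero_le _, Nat.zero_le _⟩
    intro i
    split_ifs with hi
    · exact h1 i hi
    · exact Nat.zero_le _
  · rintro ⟨h1, _, _⟩
    refine ⟨?_, fun i _ => Or.inr (by omega)⟩
    intro i hi
    have := h1 i
    rwa [if_pos hi] at this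

theorem pdLT_QWVY {W V : Finset ι} (hd : Disjoint W V) {n : ℕ} (hn : 2 ≤ n)
    (hV : V.card + 1 ≤ n) :
    PdLT (MvPolynomial σ k) (mono k (QWV e W V ∪ Set.Ici (eY e))) n := by
  rw [← mono_sup, mono_Ici]
  refine pdLT_sup ((pdLT_QWV e hd).mono hV) ?_
  rw [mono_colon (QWV_upper e W V), colon_QWV, mono_Ici]
  exact (pdLT_quot_span _).mono hn

/-- the exponent of `z` -/
noncomputable def eZ : σ →₀ ℕ := mk e (fun _ => 0) (fun _ => 0) 1

omit [Fintype ι] [DecidableEq ι] in
theorem eZ_eq : eZ e = Finsupp.single (cz e) 1 := by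
  ext v
  rcases coord_cases e v with ⟨i, rfl⟩ | ⟨i, rfl⟩ | rfl
  · rw [eZ, mk_x, Finsupp.single_eq_of_ne (cx_ne_cz e i)]
  · rw [eZ, mk_y, Finsupp.single_eq_of_ne (cy_ne_cz e i)]
  · rw [eZ, mk_z, Finsupp.single_eq_same]

omit [Fintype ι] [DecidableEq ι] in
theorem span_z : (Ideal.span {X (cz e)} : Ideal (MvPolynomial σ k)) = mono k (Set.Ici (eZ e)) := by
  rw [mono_Ici, eZ_eq]
  rfl

omit [Finite σ] [Fintype ι] [DecidableEq ι] in
theorem z_reg {C : Set (σ →₀ ℕ)} (hC : IsUpperSet C) (hdep : DepOn {v | v ≠ cz e} C) :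
    ∀ r : MvPolynomial σ k, X (cz e) * r ∈ mono k C → r ∈ mono k C := by
  intro r hr
  refine mono_primary hC hdep ?_ hr
  rw [X_mem_PS]
  intro h
  exact h rfl

theorem QWVY_dep (W V : Finset ι) : DepOn {v | v ≠ cz e} (QWV e W V ∪ Set.Ici (eY e)) := by
  intro a b hab ha
  have h1 : ∀ i, a (cx e i) = b (cx e i) := fun i => hab _ (cx_ne_cz e i)
  have h2 : ∀ i, a (cy e i) = b (cy e i) := fun i => hab _ (cy_ne_cz e i)
  rcases ha with ha | ha
  · left
    refine ⟨?_, ?_⟩
    · intro i hi; rw [← h1]; exact ha.1 i hi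
    · intro i hi; rw [← h1, ← h2]; exact ha.2 i hi
  · right
    rw [Set.mem_Ici, le_iff e] at ha ⊢
    refine ⟨fun i => by rw [← h1]; exact ha.1 i, fun i => by rw [← h2]; exact ha.2.1 i, ?_⟩
    rw [eY, mk_z]
    exact Nat.zero_le _

theorem pdLT_col {W V : Finset ι} (hd : Disjoint W V) {n : ℕ} (hn : 2 ≤ n)
    (hV : V.card + 1 ≤ n) :
    PdLT (MvPolynomial σ k)
      (MvPolynomial σ k ⧸ mono k (QWV e W V ∪ Set.Ici (eY e) ∪ Set.Ici (eZ e))) (n + 2) := by
  rw [← mono_sup (C := QWV e W V ∪ Set.Ici (eY e)), ← span_z]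
  refine pdLT_quot_reg ?_ (pdLT_quot (by omega) (pdLT_QWVY e hd hn hV))
  exact z_reg e ((QWV_upper e W V).union (isUpperSet_Ici _)) (QWVY_dep e W V)

theorem NZ_col {L : ModuleCat.{u} (MvPolynomial σ k)}
    (hL : ∀ v : σ, ∀ l : L, (X v : MvPolynomial σ k) • l = 0) (hL0 : ∃ l : L, l ≠ 0)
    {V : Finset ι} (hV : 1 ≤ V.card) :
    NZ L (MvPolynomial σ k ⧸ mono k (QV e V ∪ Set.Ici (eZ e))) (V.card + 2) := by
  rw [← mono_sup (C := QV e V), ← span_z]
  refine NZ.quot_reg ?_ (hL _) ((NZ_qV e hL hL0 V).quot hV)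
  refine z_reg e (QV_upper e V) ?_
  intro a b hab ha i hi
  rw [← hab _ (cx_ne_cz e i), ← hab _ (cy_ne_cz e i)]
  exact ha i hi

theorem pdLT_YZ : PdLT (MvPolynomial σ k)
    (MvPolynomial σ k ⧸ mono k (Set.Ici (eY e) ∪ Set.Ici (eZ e))) 3 := by
  rw [← mono_sup, ← span_z, mono_Ici]
  refine pdLT_quot_reg ?_ (pdLT_quot_span _)
  rw [← mono_Ici]
  refine z_reg e (isUpperSet_Ici _) ?_
  intro a b hab ha
  rw [Set.mem_Ici, le_iff e] at ha ⊢
  refine ⟨fun i => ?_, fun i => ?_, ?_⟩
  · rw [← hab _ (cx_ne_cz e i)]; exact ha.1 i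
  · rw [← hab _ (cy_ne_cz e i)]; exact ha.2.1 i
  · rw [eY, mk_z]
    exact Nat.zero_le _

end Pool.Agent.H62
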