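import Mathlib
import Pool.Agent.H62.QV

set_option autoImplicit false
set_option linter.unusedSectionVars false

namespace Pool.Agent.H62

open MvPolynomial
open scoped Pointwise

universe u

/-- Threshold data. -/
structure Dat (ι : Type*) where mkDat ::
  /-- thresholds -/
  a : ι → ℕ → ℕ → ℕ
  /-- bad positions, diagonal -/
  bE : ι → ℕ → ℕ → Prop
  /-- bad positions, off the diagonal -/
  bL : ι → ℕ → ℕ → Prop
  anti : ∀ i y K y' K', y ≤ y' → K ≤ K' → a i y' K' ≤ a i y K
  sub : ∀ i y K, bL i y K → bE i y K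
  down : ∀ i y K y' K', bE i y K → y' ≤ y → K' ≤ K → (y' ≠ y ∨ K' ≠ K) → a i y K < a i y' K'
  up : ∀ i y K y' K', bE i y K → y ≤ y' → K ≤ K' → (y' ≠ y ∨ K' ≠ K) → a i y' K' < a i y K
  exY : ∃ Y, ∀ i, a i Y 0 = 0
  exK : ∃ K, ∀ i, a i 0 K = 0

variable {σ ι k : Type u} [Finite σ] [Fintype ι] [DecidableEq ι] [Nonempty ι] [Field k]
  (e : σ ≃ (ι ⊕ ι) ⊕ Unit) (D : Dat ι)

theorem ymin_add_mk (v : σ →₀ ℕ) (f : ι → ℕ) (y n : ℕ) :
    ymin e (v + mk e f (fun _ => y) n) = ymin e v + y := by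
  apply le_antisymm
  · obtain ⟨j, hj⟩ := exists_ymin e v
    have := ymin_le e (v + mk e f (fun _ => y) n) j
    rw [Finsupp.add_apply, mk_y, hj] at this
    exact this
  · rw [le_ymin]
    intro j
    rw [Finsupp.add_apply, mk_y]
    have := ymin_le e v j
    omega

theorem mem_eY {v : σ →₀ ℕ} : v ∈ Set.Ici (eY e) ↔ 1 ≤ ymin e v := by
  rw [Set.mem_Ici, le_iff e, le_ymin]
  simp only [eY, mk_x, mk_y, mk_z]
  constructor
  · rintro ⟨_, h, _⟩
    exact h
  · intro h
    exact ⟨fun _ => Nat.zero_le _, h, Nat.zero_le _⟩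

theorem mem_eZ {v : σ →₀ ℕ} : v ∈ Set.Ici (eZ e) ↔ 1 ≤ v (cz e) := by
  rw [Set.mem_Ici, le_iff e]
  simp only [eZ, mk_x, mk_y, mk_z]
  constructor
  · rintro ⟨_, _, h⟩
    exact h
  · intro h
    exact ⟨fun _ => Nat.zero_le _, fun _ => Nat.zero_le _, h⟩

namespace Dat

/-- the base set -/
def Bset : Set (σ →₀ ℕ) := {u | ∀ i, D.a i (ymin e u) (u (cz e)) ≤ u (cx e i)}

theorem Bset_upper : IsUpperSet (D.Bset e) := by
  intro u v huv hu i
  exact (D.anti i _ _ _ _ (ymin_mono e huv) (huv _)).trans ((hu i).trans (huv _))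

/-- bad for the pair -/
def bad (i j : ι) (y K : ℕ) : Prop := (i = j ∧ D.bE i y K) ∨ (i ≠ j ∧ D.bL i y K)

omit [Fintype ι] [DecidableEq ι] [Nonempty ι] in
theorem bad_bE {i j : ι} {y K : ℕ} (h : D.bad i j y K) : D.bE i y K := by
  rcases h with ⟨_, h⟩ | ⟨_, h⟩
  · exact h
  · exact D.sub i y K h

/-- the hole condition at a pair -/
def HoleAt (u : σ →₀ ℕ) (i j : ι) : Prop :=
  u (cx e i) = D.a i (u (cy e j)) (u (cz e)) ∧ D.bad i j (u (cy e j)) (u (cz e))

/-- the final set -/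
def Sset : Set (σ →₀ ℕ) := {u | u ∈ D.Bset e ∧ ∀ i j, ¬ D.HoleAt e u i j}

/-- intermediate sets -/
def U (Z : Finset (ℕ × ℕ)) : Set (σ →₀ ℕ) :=
  {u | u ∈ D.Bset e ∧ ((∀ i j, ¬ D.HoleAt e u i j) ∨ (ymin e u, u (cz e)) ∉ Z)}

/-- generators -/
noncomputable def gf (y K : ℕ) : σ →₀ ℕ := mk e (fun i => D.a i y K) (fun _ => y) K

theorem hole_ymin {u : σ →₀ ℕ} (hu : u ∈ D.Bset e) {i j : ι} (h : D.HoleAt e u i j) :
    u (cy e j) = ymin e u := by
  by_contra hne
  have h1 := D.down i _ _ (ymin e u) (u (cz e)) (D.bad_bE h.2) (ymin_le e u j) le_rfl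
    (Or.inl (Ne.symm hne))
  have h2 := hu i
  rw [h.1] at h2
  omega

theorem U_upper (Z : Finset (ℕ × ℕ)) : IsUpperSet (D.U e Z) := by
  intro u v huv hu
  have hv : v ∈ D.Bset e := D.Bset_upper e huv hu.1
  refine ⟨hv, ?_⟩
  by_cases hS : ∀ i j, ¬ D.HoleAt e v i j
  · exact Or.inl hS
  · right
    push Not at hS
    obtain ⟨i, j, hij⟩ := hS
    have hy := D.hole_ymin e hv hij
    obtain ⟨h1, h2⟩ := hij
    have hbE := D.bad_bE h2
    have hpt : ymin e u = v (cy e j) ∧ u (cz e) = v (cz e) := by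
      by_contra hne
      have hne' : ymin e u ≠ v (cy e j) ∨ u (cz e) ≠ v (cz e) := by
        by_contra hh
        push Not at hh
        exact hne hh
      have h3 := D.down i _ _ (ymin e u) (u (cz e)) hbE (by rw [hy]; exact ymin_mono e huv)
        (huv _) hne'
      have h4 := hu.1 i
      have h5 := huv (cx e i)
      omega
    have hux : u (cx e i) = v (cx e i) := by
      have h4 := hu.1 i
      rw [hpt.1, hpt.2] at h4
      have h5 := huv (cx e i)
      omega
    have huy : u (cy e j) = v (cy e j) := by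
      have h4 := huv (cy e j)
      have h5 := ymin_le e u j
      have h6 := hpt.1
      omega
    have hole : D.HoleAt e u i j := by
      refine ⟨?_, ?_⟩
      · rw [hux, huy, hpt.2]; exact h1
      · rw [huy, hpt.2]; exact h2
    rcases hu.2 with h | h
    · exact absurd hole (h i j)
    · rwa [hpt.1, hpt.2, hy] at h

theorem gf_mem_Bset (y K : ℕ) : D.gf e y K ∈ D.Bset e := by
  intro i
  rw [gf, ymin_mk, mk_x, mk_z]

theorem add_gf_mem (v : σ →₀ ℕ) (y K : ℕ) : v + D.gf e y K ∈ D.Bset e :=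
  D.Bset_upper e (by exact le_add_self) (D.gf_mem_Bset e y K)

theorem gf_le {u : σ →₀ ℕ} (hu : u ∈ D.Bset e) {y K : ℕ} (hy : ymin e u = y) (hK : u (cz e) = K) :
    D.gf e y K ≤ u := by
  rw [le_iff e]
  subst hy hK
  refine ⟨fun i => ?_, fun i => ?_, ?_⟩
  · rw [gf, mk_x]; exact hu i
  · rw [gf, mk_y]; exact ymin_le e u i
  · rw [gf, mk_z]

theorem U_insert {Z : Finset (ℕ × ℕ)} {y K : ℕ} (hp : (y, K) ∉ Z) :
    D.U e Z = D.U e (insert (y, K) Z) ∪ Set.Ici (D.gf e y K) := by
  ext u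
  constructor
  · intro hu
    by_cases h : u ∈ D.U e (insert (y, K) Z)
    · exact Or.inl h
    · right
      have h1 : (ymin e u, u (cz e)) ∈ insert (y, K) Z := by
        by_contra hh
        exact h ⟨hu.1, Or.inr hh⟩
      have h2 : ¬ ∀ i j, ¬ D.HoleAt e u i j := fun hh => h ⟨hu.1, Or.inl hh⟩
      have h3 : (ymin e u, u (cz e)) ∉ Z := hu.2.resolve_left h2
      rw [Finset.mem_insert] at h1
      have h4 := h1.resolve_right h3
      rw [Prod.mk.injEq] at h4
      exact D.gf_le e hu.1 h4.1 h4.2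
  · rintro (h | h)
    · refine ⟨h.1, h.2.imp id ?_⟩
      intro h1 h2
      exact h1 (Finset.mem_insert_of_mem h2)
    · refine D.U_upper e Z (Set.mem_Ici.1 h) ⟨D.gf_mem_Bset e y K, Or.inr ?_⟩
      rwa [gf, ymin_mk, mk_z]

open Classical in
/-- bad rows -/
noncomputable def W (y K : ℕ) : Finset ι := Finset.univ.filter (fun i => D.bL i y K)

open Classical in
/-- exceptional rows -/
noncomputable def V (y K : ℕ) : Finset ι :=
  Finset.univ.filter (fun i => D.bE i y K ∧ ¬ D.bL i y K)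

omit [DecidableEq ι] [Nonempty ι] in
theorem mem_W {y K : ℕ} {i : ι} : i ∈ D.W y K ↔ D.bL i y K := by simp [W]

omit [DecidableEq ι] [Nonempty ι] in
theorem mem_V {y K : ℕ} {i : ι} : i ∈ D.V y K ↔ D.bE i y K ∧ ¬ D.bL i y K := by simp [V]

omit [DecidableEq ι] [Nonempty ι] in
theorem disj (y K : ℕ) : Disjoint (D.W y K) (D.V y K) := by
  rw [Finset.disjoint_left]
  intro i h1 h2
  exact ((D.mem_V).1 h2).2 ((D.mem_W).1 h1)

theorem U_colon (Z : Finset (ℕ × ℕ)) (y K : ℕ) :
    {v : σ →₀ ℕ | v + D.gf e y K ∈ D.U e (insert (y, K) Z)} =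
      QWV e (D.W y K) (D.V y K) ∪ Set.Ici (eY e) ∪ Set.Ici (eZ e) := by
  ext v
  have hB := D.add_gf_mem e v y K
  have hym : ymin e (v + D.gf e y K) = ymin e v + y := ymin_add_mk e v _ y K
  have hx : ∀ i, (v + D.gf e y K) (cx e i) = v (cx e i) + D.a i y K := by
    intro i; rw [Finsupp.add_apply, gf, mk_x]
  have hyy : ∀ i, (v + D.gf e y K) (cy e i) = v (cy e i) + y := by
    intro i; rw [Finsupp.add_apply, gf, mk_y]
  have hz : (v + D.gf e y K) (cz e) = v (cz e) + K := by
    rw [Finsupp.add_apply, gf, mk_z]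
  rw [Set.mem_union, Set.mem_union, mem_eY, mem_eZ]
  by_cases hc : 1 ≤ ymin e v ∨ 1 ≤ v (cz e)
  · have hL : v ∈ {v : σ →₀ ℕ | v + D.gf e y K ∈ D.U e (insert (y, K) Z)} := by
      refine ⟨hB, Or.inl ?_⟩
      intro i j hij
      have h1 := D.hole_ymin e hB hij
      rw [hym, hyy] at h1
      obtain ⟨h2, h3⟩ := hij
      rw [hyy, hz] at h2 h3
      rw [hx] at h2
      have h4 := D.down i _ _ y K (D.bad_bE h3) (by omega) (by omega) (by omega)
      omega
    constructor
    · intro _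
      tauto
    · intro _
      exact hL
  · push Not at hc
    have hy0 : ymin e v = 0 := by omega
    have hz0 : v (cz e) = 0 := by omega
    obtain ⟨j0, hj0⟩ := exists_ymin e v
    rw [hy0] at hj0
    constructor
    · intro hv
      left; left
      have hpt : (ymin e (v + D.gf e y K), (v + D.gf e y K) (cz e)) ∈ insert (y, K) Z := by
        rw [hym, hz, hy0, hz0, zero_add, zero_add]
        exact Finset.mem_insert_self _ _
      have hS : ∀ i j, ¬ D.HoleAt e (v + D.gf e y K) i j :=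
        hv.2.resolve_right (fun h => h hpt)
      refine ⟨?_, ?_⟩
      · intro i hi
        rw [D.mem_W] at hi
        by_contra hlt
        have hxi : v (cx e i) = 0 := by omega
        apply hS i j0
        refine ⟨?_, ?_⟩
        · rw [hx, hyy, hz, hj0, hz0, hxi, zero_add, zero_add, zero_add]
        · rw [hyy, hz, hj0, hz0, zero_add, zero_add]
          by_cases hij : i = j0
          · exact Or.inl ⟨hij, D.sub _ _ _ hi⟩
          · exact Or.inr ⟨hij, hi⟩
      · intro i hi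
        rw [D.mem_V] at hi
        by_contra hlt
        have hxi : v (cx e i) = 0 := by omega
        have hyi : v (cy e i) = 0 := by omega
        apply hS i i
        refine ⟨?_, ?_⟩
        · rw [hx, hyy, hz, hyi, hz0, hxi, zero_add, zero_add, zero_add]
        · rw [hyy, hz, hyi, hz0, zero_add, zero_add]
          exact Or.inl ⟨rfl, hi.1⟩
    · intro hv
      have hv' : v ∈ QWV e (D.W y K) (D.V y K) := by
        rcases hv with (h | h) | h
        · exact h
        · omega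
        · omega
      refine ⟨hB, Or.inl ?_⟩
      intro i j hij
      have h1 := D.hole_ymin e hB hij
      rw [hym, hyy, hy0] at h1
      have hyj : v (cy e j) = 0 := by omega
      obtain ⟨h2, h3⟩ := hij
      rw [hyy, hz, hyj, hz0, zero_add, zero_add] at h2 h3
      rw [hx] at h2
      have hxi : v (cx e i) = 0 := by omega
      by_cases hW : D.bL i y K
      · have := hv'.1 i ((D.mem_W).2 hW)
        omega
      · rcases h3 with ⟨rfl, h3⟩ | ⟨_, h3⟩
        · have := hv'.2 i ((D.mem_V).2 ⟨h3, hW⟩)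
          omega
        · exact hW h3

theorem mono_U_insert {Z : Finset (ℕ × ℕ)} {y K : ℕ} (hp : (y, K) ∉ Z) :
    mono k (D.U e Z) = mono k (D.U e (insert (y, K) Z)) ⊔ Ideal.span {monomial (D.gf e y K) 1} := by
  rw [D.U_insert e hp, ← mono_Ici, mono_sup]

theorem colon_U (Z : Finset (ℕ × ℕ)) (y K : ℕ) :
    (mono k (D.U e (insert (y, K) Z))).colon {monomial (D.gf e y K) 1} =
      mono k (QWV e (D.W y K) (D.V y K) ∪ Set.Ici (eY e) ∪ Set.Ici (eZ e)) := by
  rw [mono_colon (D.U_upper e _), D.U_colon]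

/-! ### base -/

/-- lexicographic pieces of the base set -/
def BL (y K : ℕ) : Set (σ →₀ ℕ) :=
  {u | u ∈ D.Bset e ∧ (y < ymin e u ∨ (ymin e u = y ∧ K ≤ u (cz e)))}

theorem BL_upper (y K : ℕ) : IsUpperSet (D.BL e y K) := by
  intro u v huv hu
  refine ⟨D.Bset_upper e huv hu.1, ?_⟩
  have h1 := ymin_mono e huv
  have h2 := huv (cz e)
  rcases hu.2 with h | ⟨h, h'⟩
  · left; omega
  · by_cases hh : y < ymin e v
    · left; exact hh
    · right; exact ⟨by omega, by omega⟩

theorem BL_zero : D.BL e 0 0 = D.Bset e := by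
  ext u
  constructor
  · exact fun h => h.1
  · intro h
    refine ⟨h, ?_⟩
    by_cases hh : 0 < ymin e u
    · left; exact hh
    · right; exact ⟨by omega, by omega⟩

theorem BL_top {Y : ℕ} (hY : ∀ i, D.a i Y 0 = 0) : D.BL e Y 0 = Set.Ici (D.gf e Y 0) := by
  ext u
  constructor
  · intro h
    rw [Set.mem_Ici, le_iff e]
    have hy : Y ≤ ymin e u := by
      rcases h.2 with h | h
      · omega
      · omega
    refine ⟨fun i => ?_, fun i => ?_, ?_⟩
    · rw [gf, mk_x, hY]; exact Nat.zero_le _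
    · rw [gf, mk_y]; exact hy.trans (ymin_le e u i)
    · rw [gf, mk_z]; exact Nat.zero_le _
  · intro h
    refine D.BL_upper e _ _ (Set.mem_Ici.1 h) ⟨D.gf_mem_Bset e _ _, Or.inr ?_⟩
    rw [gf, ymin_mk, mk_z]
    exact ⟨rfl, le_rfl⟩

theorem BL_stepY {K0 : ℕ} (hK : ∀ i, D.a i 0 K0 = 0) (y : ℕ) :
    D.BL e y K0 = D.BL e (y + 1) 0 ∪ Set.Ici (D.gf e y K0) := by
  ext u
  constructor
  · intro h
    rcases h.2 with h1 | h1
    · left
      refine ⟨h.1, ?_⟩
      by_cases hh : y + 1 < ymin e u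
      · left; exact hh
      · right; exact ⟨by omega, by omega⟩
    · right
      rw [Set.mem_Ici, le_iff e]
      refine ⟨fun i => ?_, fun i => ?_, ?_⟩
      · rw [gf, mk_x]
        have := D.anti i 0 K0 y K0 (Nat.zero_le _) le_rfl
        rw [hK] at this
        omega
      · rw [gf, mk_y, ← h1.1]; exact ymin_le e u i
      · rw [gf, mk_z]; exact h1.2
  · rintro (h | h)
    · refine ⟨h.1, ?_⟩
      rcases h.2 with h1 | h1
      · left; omega
      · left; omega
    · refine D.BL_upper e _ _ (Set.mem_Ici.1 h) ⟨D.gf_mem_Bset e _ _, Or.inr ?_⟩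
      rw [gf, ymin_mk, mk_z]
      exact ⟨rfl, le_rfl⟩

theorem BL_stepK (y K : ℕ) :
    D.BL e y K = D.BL e y (K + 1) ∪ Set.Ici (D.gf e y K) := by
  ext u
  constructor
  · intro h
    rcases h.2 with h1 | h1
    · left
      exact ⟨h.1, Or.inl h1⟩
    · by_cases hh : K + 1 ≤ u (cz e)
      · left
        exact ⟨h.1, Or.inr ⟨h1.1, hh⟩⟩
      · right
        exact D.gf_le e h.1 h1.1 (by omega)
  · rintro (h | h)
    · refine ⟨h.1, ?_⟩
      rcases h.2 with h1 | h1
      · left; omega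
      · right; exact ⟨h1.1, by omega⟩
    · refine D.BL_upper e _ _ (Set.mem_Ici.1 h) ⟨D.gf_mem_Bset e _ _, Or.inr ?_⟩
      rw [gf, ymin_mk, mk_z]
      exact ⟨rfl, le_rfl⟩

theorem BL_colonY (y K : ℕ) :
    {v : σ →₀ ℕ | v + D.gf e y K ∈ D.BL e (y + 1) 0} = Set.Ici (eY e) := by
  ext v
  have hB := D.add_gf_mem e v y K
  have hym : ymin e (v + D.gf e y K) = ymin e v + y := ymin_add_mk e v _ y K
  rw [mem_eY]
  constructor
  · intro h
    have h1 := h.2
    rw [hym] at h1
    omega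
  · intro h
    refine ⟨hB, ?_⟩
    rw [hym]
    by_cases hh : y + 1 < ymin e v + y
    · left; exact hh
    · right; exact ⟨by omega, by omega⟩

theorem BL_colonK (y K : ℕ) :
    {v : σ →₀ ℕ | v + D.gf e y K ∈ D.BL e y (K + 1)} = Set.Ici (eY e) ∪ Set.Ici (eZ e) := by
  ext v
  have hB := D.add_gf_mem e v y K
  have hym : ymin e (v + D.gf e y K) = ymin e v + y := ymin_add_mk e v _ y K
  have hz : (v + D.gf e y K) (cz e) = v (cz e) + K := by
    rw [Finsupp.add_apply, gf, mk_z]
  rw [Set.mem_union, mem_eY, mem_eZ]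
  constructor
  · intro h
    have h1 := h.2
    rw [hym, hz] at h1
    omega
  · intro h
    refine ⟨hB, ?_⟩
    rw [hym, hz]
    omega

theorem pdLT_BL (y K : ℕ) : PdLT (MvPolynomial σ k) (mono k (D.BL e y K)) 3 := by
  obtain ⟨Y, hY⟩ := D.exY
  obtain ⟨K0, hK0⟩ := D.exK
  have stepY : ∀ K0 : ℕ, (∀ i, D.a i 0 K0 = 0) → ∀ y,
      PdLT (MvPolynomial σ k) (mono k (D.BL e (y + 1) 0)) 3 →
      PdLT (MvPolynomial σ k) (mono k (D.BL e y K0)) 3 := by
    intro K0 hK0 y h
    rw [D.BL_stepY e hK0, ← mono_sup, mono_Ici]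
    refine pdLT_sup h ?_
    rw [mono_colon (D.BL_upper e _ _), D.BL_colonY, mono_Ici]
    exact (pdLT_quot_span _).mono (by omega)
  have stepK : ∀ y K, PdLT (MvPolynomial σ k) (mono k (D.BL e y (K + 1))) 3 →
      PdLT (MvPolynomial σ k) (mono k (D.BL e y K)) 3 := by
    intro y K h
    rw [D.BL_stepK e, ← mono_sup, mono_Ici]
    refine pdLT_sup h ?_
    rw [mono_colon (D.BL_upper e _ _), D.BL_colonK]
    exact pdLT_YZ e
  have key : ∀ y, PdLT (MvPolynomial σ k) (mono k (D.BL e (y + 1) 0)) 3 →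
      ∀ K, PdLT (MvPolynomial σ k) (mono k (D.BL e y K)) 3 := by
    intro y h K
    have hmax : ∀ i, D.a i 0 (K0 + K) = 0 := by
      intro i
      have := D.anti i 0 K0 0 (K0 + K) le_rfl (by omega)
      rw [hK0] at this
      omega
    have h1 := stepY (K0 + K) hmax y h
    have h2 : ∀ j, PdLT (MvPolynomial σ k) (mono k (D.BL e y (j + K))) 3 →
        PdLT (MvPolynomial σ k) (mono k (D.BL e y K)) 3 := by
      intro j
      induction j with
      | zero => intro h; rwa [Nat.zero_add] at h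
      | succ j ih =>
        intro h
        apply ih
        apply stepK
        rwa [show j + K + 1 = j + 1 + K by omega]
    exact h2 K0 h1
  have htop : ∀ y, Y ≤ y → PdLT (MvPolynomial σ k) (mono k (D.BL e y 0)) 3 := by
    intro y hy
    have hy' : ∀ i, D.a i y 0 = 0 := by
      intro i
      have := D.anti i Y 0 y 0 hy le_rfl
      rw [hY] at this
      omega
    rw [D.BL_top e hy', mono_Ici]
    exact (pdLT_span _).mono (by omega)
  have h3 : ∀ j y, Y ≤ y + j → PdLT (MvPolynomial σ k) (mono k (D.BL e y 0)) 3 := by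
    intro j
    induction j with
    | zero => intro y hy; exact htop y (by omega)
    | succ j ih =>
      intro y hy
      exact key y (ih (y + 1) (by omega)) 0
  exact key y (h3 Y (y + 1) (by omega)) K

theorem pdLT_Bset : PdLT (MvPolynomial σ k) (mono k (D.Bset e)) 3 := by
  rw [← D.BL_zero]
  exact D.pdLT_BL e 0 0

/-! ### main -/

theorem U_empty : D.U e ∅ = D.Bset e := by
  ext u
  constructor
  · exact fun h => h.1
  · exact fun h => ⟨h, Or.inr (by simp)⟩

theorem pdLT_U {n : ℕ} (hn : 2 ≤ n) (hV : ∀ y K, (D.V y K).card + 1 ≤ n)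
    (Z : Finset (ℕ × ℕ)) : PdLT (MvPolynomial σ k) (mono k (D.U e Z)) (n + 1) := by
  induction Z using Finset.induction_on with
  | empty =>
    rw [D.U_empty]
    exact (D.pdLT_Bset e).mono (by omega)
  | insert p Z hp ih =>
    obtain ⟨y, K⟩ := p
    rw [D.mono_U_insert e hp] at ih
    refine pdLT_of_sup ih ?_
    rw [D.colon_U]
    exact pdLT_col e (D.disj y K) hn (hV y K)

theorem exists_Z : ∃ Z : Finset (ℕ × ℕ), D.U e Z = D.Sset e ∧
    ∀ i y K, D.bE i y K → (y, K) ∈ Z := by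
  obtain ⟨Y, hY⟩ := D.exY
  obtain ⟨K0, hK0⟩ := D.exK
  have hb : ∀ i y K, D.bE i y K → (y, K) ∈ Finset.range Y ×ˢ Finset.range K0 := by
    intro i y K h
    rw [Finset.mem_product, Finset.mem_range, Finset.mem_range]
    constructor
    · by_contra hh
      have h1 := D.up i y K (y + 1) K h (by omega) le_rfl (by omega)
      have h2 := D.anti i Y 0 y K (by omega) (by omega)
      rw [hY] at h2
      omega
    · by_contra hh
      have h1 := D.up i y K (y + 1) K h (by omega) le_rfl (by omega)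
      have h2 := D.anti i 0 K0 y K (by omega) (by simpa using hh)
      rw [hK0] at h2
      omega
  refine ⟨Finset.range Y ×ˢ Finset.range K0, ?_, hb⟩
  ext u
  constructor
  · intro h
    refine ⟨h.1, ?_⟩
    rcases h.2 with h1 | h1
    · exact h1
    · intro i j hij
      apply h1
      have h2 := D.hole_ymin e h.1 hij
      rw [← h2]
      exact hb i _ _ (D.bad_bE hij.2)
  · intro h
    exact ⟨h.1, Or.inl h.2⟩

theorem Sset_upper : IsUpperSet (D.Sset e) := by
  obtain ⟨Z, hZ, _⟩ := D.exists_Z e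
  rw [← hZ]
  exact D.U_upper e Z

theorem pdLT_Sset {n : ℕ} (hn : 2 ≤ n) (hV : ∀ y K, (D.V y K).card + 1 ≤ n) :
    PdLT (MvPolynomial σ k) (mono k (D.Sset e)) (n + 1) := by
  obtain ⟨Z, hZ, _⟩ := D.exists_Z e
  rw [← hZ]
  exact D.pdLT_U e hn hV Z

theorem not_pdLT_Sset {n : ℕ} (hn : 2 ≤ n) (hV : ∀ y K, (D.V y K).card + 1 ≤ n)
    {y K : ℕ} (hW : ∀ i, ¬ D.bL i y K) (hVc : (D.V y K).card + 1 = n) :
    ¬ PdLT (MvPolynomial σ k) (mono k (D.Sset e)) n := by
  intro hlt
  obtain ⟨Z, hZ, hZb⟩ := D.exists_Z e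
  have hVne : (D.V y K).Nonempty := by
    rw [← Finset.card_pos]; omega
  obtain ⟨i0, hi0⟩ := hVne
  have hmem : (y, K) ∈ Z := hZb i0 y K ((D.mem_V).1 hi0).1
  have hins : insert (y, K) (Z.erase (y, K)) = Z := Finset.insert_erase hmem
  have hnot : (y, K) ∉ Z.erase (y, K) := Finset.notMem_erase _ _
  have h1 := D.pdLT_U (k := k) e hn hV (Z.erase (y, K))
  rw [D.mono_U_insert e hnot] at h1
  have h2 : PdLT (MvPolynomial σ k) (mono k (D.U e (insert (y, K) (Z.erase (y, K))))) n := by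
    rw [hins, hZ]; exact hlt
  have h3 := pdLT_colon h2 h1
  rw [D.colon_U] at h3
  have hWe : D.W y K = ∅ := by
    rw [Finset.eq_empty_iff_forall_notMem]
    intro i hi
    exact hW i ((D.mem_W).1 hi)
  have hset : QWV e (D.W y K) (D.V y K) ∪ Set.Ici (eY e) ∪ Set.Ici (eZ e) =
      QV e (D.V y K) ∪ Set.Ici (eZ e) := by
    congr 1
    rw [hWe]
    ext v
    constructor
    · rintro (h | h)
      · exact h.2
      · intro i _
        right
        have := (mem_eY e).1 h
        exact this.trans (ymin_le e v i)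
    · intro h
      left
      exact ⟨fun i hi => absurd hi (Finset.notMem_empty i), h⟩
  rw [hset] at h3
  let L : ModuleCat.{u} (MvPolynomial σ k) :=
    ModuleCat.of (MvPolynomial σ k) (MvPolynomial σ k ⧸ PS k (Set.univ : Set σ))
  have hL : ∀ v : σ, ∀ l : L, (X v : MvPolynomial σ k) • l = 0 := by
    intro v l
    obtain ⟨r, rfl⟩ := Submodule.Quotient.mk_surjective _ l
    rw [← Submodule.Quotient.mk_smul, Submodule.Quotient.mk_eq_zero, smul_eq_mul]
    exact Ideal.mul_mem_right _ _ (X_mem_PS.2 (Set.mem_univ v))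
  have hL0 : ∃ l : L, l ≠ 0 := by
    refine ⟨Submodule.Quotient.mk 1, ?_⟩
    rw [Ne, Submodule.Quotient.mk_eq_zero]
    intro h
    exact (PS_prime (k := k) (Set.univ : Set σ)).ne_top ((Ideal.eq_top_iff_one _).2 h)
  have h4 := (NZ_col (L := L) e hL hL0 (V := D.V y K) (by omega)).lt h3
  omega

end Dat

end Pool.Agent.H62
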