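import Mathlib
import Pool.Agent.H62.Mono

set_option autoImplicit false

namespace Pool.Agent.H62

/-- Bad positions on the second face of the roof. -/
def Bad (M : ℕ) (B : ℕ → Prop) (K e : ℕ) : Prop := (K = 0 ∧ ¬ M ∣ e) ∨ (K = 1 ∧ B e)

/-- The closed form of the exponents in the `t`-th power. -/
def TT (c M : ℕ) (B : ℕ → Prop) (t x y K : ℕ) : Prop :=
  (c + 2 * M) * t ≤ x + y + K ∧ (2 * c + 2 * M) * t ≤ x + 2 * y + K ∧
    (x + y + K = (c + 2 * M) * t → c * t < y → ¬ Bad M B K (y - c * t))

/-- The conditions on the set of bad positions at level one. -/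
structure GoodB (M : ℕ) (B : ℕ → Prop) : Prop where
  two_le : 2 ≤ M
  zero : ¬ B 0
  add : ∀ e, ¬ B e → ¬ B (e + M)
  sub : ∀ e, ¬ B e → 2 * M ≤ e → ¬ B (e - M)

variable {c M : ℕ} {B : ℕ → Prop}

theorem GoodB.add_mul (h : GoodB M B) {e : ℕ} (he : ¬ B e) (n : ℕ) : ¬ B (e + M * n) := by
  induction n with
  | zero => simpa using he
  | succ n ih =>
    have := h.add _ ih
    rwa [add_assoc, ← Nat.mul_succ] at this

theorem TT.mono {t x y K x' y' K' : ℕ} (h : TT c M B t x y K) (hx : x ≤ x') (hy : y ≤ y')
    (hK : K ≤ K') : TT c M B t x' y' K' := by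
  obtain ⟨h1, h2, h3⟩ := h
  refine ⟨by omega, by omega, ?_⟩
  intro he hlt
  have hx' : x = x' := by omega
  have hy' : y = y' := by omega
  have hK' : K = K' := by omega
  subst hx' hy' hK'
  exact h3 he hlt

theorem TT.add (hB : GoodB M B) {s x y K x' y' K' : ℕ} (h : TT c M B s x y K)
    (h' : TT c M B 1 x' y' K') : TT c M B (s + 1) (x + x') (y + y') (K + K') := by
  obtain ⟨h1, h2, h3⟩ := h
  obtain ⟨h1', h2', h3'⟩ := h'
  have e1 : (c + 2 * M) * (s + 1) = c * s + 2 * (M * s) + c + 2 * M := by ring
  have e2 : (2 * c + 2 * M) * (s + 1) = 2 * (c * s) + 2 * (M * s) + 2 * c + 2 * M := by ring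
  have e3 : c * (s + 1) = c * s + c := by ring
  have e4 : (c + 2 * M) * s = c * s + 2 * (M * s) := by ring
  have e5 : (2 * c + 2 * M) * s = 2 * (c * s) + 2 * (M * s) := by ring
  unfold TT
  rw [e1, e2, e3]
  rw [e4] at h1 h3
  rw [e5] at h2
  rw [mul_one] at h1' h2' h3'
  rw [mul_one] at h3'
  generalize hcs : c * s = a at *
  generalize hMs : M * s = b at *
  refine ⟨by omega, by omega, ?_⟩
  intro he hlt hbad
  have q1 : x + y + K = a + 2 * b := by omega
  have q2 : x' + y' + K' = c + 2 * M := by omega
  have q3 : a ≤ y := by omega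
  have q4 : c ≤ y' := by omega
  have g1 : ¬ Bad M B K (y - a) := by
    by_cases hy : a < y
    · exact h3 q1 hy
    · have : y - a = 0 := by omega
      rw [this]
      rintro (⟨_, h⟩ | ⟨_, h⟩)
      · exact h (dvd_zero M)
      · exact hB.zero h
  have g2 : ¬ Bad M B K' (y' - c) := by
    by_cases hy : c < y'
    · exact h3' q2 hy
    · have : y' - c = 0 := by omega
      rw [this]
      rintro (⟨_, h⟩ | ⟨_, h⟩)
      · exact h (dvd_zero M)
      · exact hB.zero h
  have e6 : y + y' - (a + c) = (y - a) + (y' - c) := by omega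
  rw [e6] at hbad
  rcases hbad with ⟨hK, hd⟩ | ⟨hK, hb⟩
  · have hK1 : K = 0 := by omega
    have hK2 : K' = 0 := by omega
    subst hK1 hK2
    have d1 : M ∣ y - a := by
      by_contra hh; exact g1 (Or.inl ⟨rfl, hh⟩)
    have d2 : M ∣ y' - c := by
      by_contra hh; exact g2 (Or.inl ⟨rfl, hh⟩)
    exact hd (dvd_add d1 d2)
  · rcases (by omega : (K = 1 ∧ K' = 0) ∨ (K = 0 ∧ K' = 1)) with ⟨hK1, hK2⟩ | ⟨hK1, hK2⟩
    · subst hK1 hK2
      have d1 : ¬ B (y - a) := fun hh => g1 (Or.inr ⟨rfl, hh⟩)
      have d2 : M ∣ y' - c := by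
        by_contra hh; exact g2 (Or.inl ⟨rfl, hh⟩)
      obtain ⟨n, hn⟩ := d2
      rw [hn] at hb
      exact hB.add_mul d1 n hb
    · subst hK1 hK2
      have d1 : ¬ B (y' - c) := fun hh => g2 (Or.inr ⟨rfl, hh⟩)
      have d2 : M ∣ y - a := by
        by_contra hh; exact g1 (Or.inl ⟨rfl, hh⟩)
      obtain ⟨n, hn⟩ := d2
      rw [hn, add_comm] at hb
      exact hB.add_mul d1 n hb

theorem TT.split (hB : GoodB M B) {s x y K : ℕ} (hs : 1 ≤ s) (h : TT c M B (s + 1) x y K) :
    ∃ x₁ y₁ K₁, x₁ ≤ x ∧ y₁ ≤ y ∧ K₁ ≤ K ∧ TT c M B 1 x₁ y₁ K₁ ∧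
      TT c M B s (x - x₁) (y - y₁) (K - K₁) := by
  obtain ⟨h1, h2, h3⟩ := h
  have e1 : (c + 2 * M) * (s + 1) = c * s + 2 * (M * s) + c + 2 * M := by ring
  have e2 : (2 * c + 2 * M) * (s + 1) = 2 * (c * s) + 2 * (M * s) + 2 * c + 2 * M := by ring
  have e3 : c * (s + 1) = c * s + c := by ring
  have e4 : (c + 2 * M) * s = c * s + 2 * (M * s) := by ring
  have e5 : (2 * c + 2 * M) * s = 2 * (c * s) + 2 * (M * s) := by ring
  have hb : M ≤ M * s := Nat.le_mul_of_pos_right M (by omega)
  have hM2 := hB.two_le
  unfold TT
  rw [e1] at h1 h3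
  rw [e2] at h2
  rw [e3] at h3
  simp only [mul_one]
  rw [e4, e5]
  generalize hcs : c * s = a at *
  generalize hMs : M * s = b at *
  have nb0 : ∀ K' e, 2 ≤ K' → ¬ Bad M B K' e := by
    rintro K' e hK' (⟨h, _⟩ | ⟨h, _⟩) <;> omega
  have nbM : ¬ Bad M B 0 M := by
    rintro (⟨_, h⟩ | ⟨h, _⟩)
    · exact h (dvd_refl M)
    · omega
  have nb2M : ¬ Bad M B 0 (2 * M) := by
    rintro (⟨_, h⟩ | ⟨h, _⟩)
    · exact h (dvd_mul_left M 2)
    · omega
  by_cases hy : y ≤ a + c
  · -- first face
    refine ⟨min x (2 * c + 2 * M - 2 * min c y), min c y,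
      2 * c + 2 * M - 2 * min c y - min x (2 * c + 2 * M - 2 * min c y),
      by omega, by omega, by omega, ⟨by omega, by omega, by omega⟩, by omega, by omega, by omega⟩
  · push Not at hy
    obtain ⟨e, rfl⟩ : ∃ e, y = a + c + e := ⟨y - (a + c), by omega⟩
    by_cases hstr : 2 * b + 2 * M < x + e + K
    · by_cases hK : 2 ≤ K
      · have key : min K (2 * M) + min x (2 * M - min K (2 * M)) ≤ 2 * M := by omega
        have key2 : 2 * M - min K (2 * M) - min x (2 * M - min K (2 * M)) ≤ e := by omega
        refine ⟨min x (2 * M - min K (2 * M)),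
          c + (2 * M - min K (2 * M) - min x (2 * M - min K (2 * M))), min K (2 * M),
          by omega, by omega, by omega, ⟨by omega, by omega, ?_⟩, by omega, by omega, by omega⟩
        intro _ _
        exact nb0 _ _ (by omega)
      · by_cases hx : 2 * M ≤ x
        · exact ⟨2 * M, c, 0, by omega, by omega, by omega, ⟨by omega, by omega, by omega⟩,
            by omega, by omega, by omega⟩
        · refine ⟨0, c + 2 * M, 0, by omega, by omega, by omega, ⟨by omega, by omega, ?_⟩,
            by omega, by omega, by omega⟩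
          intro _ _
          rw [show c + 2 * M - c = 2 * M by omega]
          exact nb2M
    · have heq : x + e + K = 2 * b + 2 * M := by omega
      have hnb : ¬ Bad M B K e := by
        have := h3 (by omega) (by omega)
        rwa [show a + c + e - (a + c) = e by omega] at this
      rcases (by omega : K = 0 ∨ K = 1 ∨ (2 ≤ K ∧ K ≤ 3) ∨ 4 ≤ K) with hK | hK | hK | hK
      · subst hK
        have hd : M ∣ e := by
          by_contra hh; exact hnb (Or.inl ⟨rfl, hh⟩)
        by_cases he : e < 2 * M
        · have he' : e = M := by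
            obtain ⟨n, rfl⟩ := hd
            have : n < 2 := by
              by_contra hn
              have : M * 2 ≤ M * n := Nat.mul_le_mul_left M (by omega)
              omega
            interval_cases n <;> omega
          subst he'
          refine ⟨e, c + e, 0, by omega, by omega, by omega, ⟨by omega, by omega, ?_⟩,
            by omega, by omega, by omega⟩
          intro _ _
          rw [show c + e - c = e by omega]
          exact nbM
        · refine ⟨0, c + 2 * M, 0, by omega, by omega, by omega, ⟨by omega, by omega, ?_⟩,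
            by omega, by omega, ?_⟩
          · intro _ _
            rw [show c + 2 * M - c = 2 * M by omega]
            exact nb2M
          · intro _ _
            rw [show a + c + e - (c + 2 * M) - a = e - 2 * M by omega]
            rintro (⟨_, h⟩ | ⟨h, _⟩)
            · exact h (Nat.dvd_sub hd (dvd_mul_left M 2))
            · omega
      · subst hK
        have hnB : ¬ B e := fun hh => hnb (Or.inr ⟨rfl, hh⟩)
        by_cases he3 : 3 * M ≤ e
        · have s1 := hB.sub e hnB (by omega)
          have s2 := hB.sub (e - M) s1 (by omega)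
          refine ⟨0, c + 2 * M, 0, by omega, by omega, by omega, ⟨by omega, by omega, ?_⟩,
            by omega, by omega, ?_⟩
          · intro _ _
            rw [show c + 2 * M - c = 2 * M by omega]
            exact nb2M
          · intro _ _
            rw [show a + c + e - (c + 2 * M) - a = e - M - M by omega]
            rintro (⟨h, _⟩ | ⟨_, h⟩)
            · omega
            · exact s2 h
        · by_cases he2 : 2 * M ≤ e
          · have s1 := hB.sub e hnB (by omega)
            refine ⟨M, c + M, 0, by omega, by omega, by omega, ⟨by omega, by omega, ?_⟩,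
              by omega, by omega, ?_⟩
            · intro _ _
              rw [show c + M - c = M by omega]
              exact nbM
            · intro _ _
              rw [show a + c + e - (c + M) - a = e - M by omega]
              rintro (⟨h, _⟩ | ⟨_, h⟩)
              · omega
              · exact s1 h
          · refine ⟨2 * M, c, 0, by omega, by omega, by omega, ⟨by omega, by omega, by omega⟩,
              by omega, by omega, ?_⟩
            intro _ _
            rw [show a + c + e - c - a = e by omega]
            exact hnb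
      · by_cases hx : 2 * M ≤ x
        · refine ⟨2 * M, c, 0, by omega, by omega, by omega, ⟨by omega, by omega, by omega⟩,
            by omega, by omega, ?_⟩
          intro _ _
          exact nb0 _ _ (by omega)
        · by_cases he : 2 * M ≤ e
          · refine ⟨0, c + 2 * M, 0, by omega, by omega, by omega, ⟨by omega, by omega, ?_⟩,
              by omega, by omega, ?_⟩
            · intro _ _
              rw [show c + 2 * M - c = 2 * M by omega]
              exact nb2M
            · intro _ _
              exact nb0 _ _ (by omega)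
          · refine ⟨M, c + M, 0, by omega, by omega, by omega, ⟨by omega, by omega, ?_⟩,
              by omega, by omega, ?_⟩
            · intro _ _
              rw [show c + M - c = M by omega]
              exact nbM
            · intro _ _
              exact nb0 _ _ (by omega)
      · have key : min (K - 2) (2 * M) + min x (2 * M - min (K - 2) (2 * M)) ≤ 2 * M := by omega
        have key2 : 2 * M - min (K - 2) (2 * M) - min x (2 * M - min (K - 2) (2 * M)) ≤ e := by
          omega
        refine ⟨min x (2 * M - min (K - 2) (2 * M)),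
          c + (2 * M - min (K - 2) (2 * M) - min x (2 * M - min (K - 2) (2 * M))),
          min (K - 2) (2 * M),
          by omega, by omega, by omega, ⟨by omega, by omega, ?_⟩, by omega, by omega, ?_⟩
        · intro _ _
          exact nb0 _ _ (by omega)
        · intro _ _
          exact nb0 _ _ (by omega)

end Pool.Agent.H62
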