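import Mathlib
import Pool.Agent.H62.Pow
import Pool.Agent.H62.Symb

set_option autoImplicit false

namespace Pool.Agent.H62

open scoped Pointwise

variable {σ : Type*} {k : Type*} [Field k] {c M : ℕ} {B : ℕ → Prop} {x y z : σ}

/-- The exponent set of the `t`-th power of a component ideal. -/
def CT (c M : ℕ) (B : ℕ → Prop) (x y z : σ) (t : ℕ) : Set (σ →₀ ℕ) :=
  {a | TT c M B t (a x) (a y) (a z)}

theorem CT_upper (t : ℕ) : IsUpperSet (CT c M B x y z t) := by
  intro a b hab ha
  exact TT.mono ha (hab x) (hab y) (hab z)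

theorem CT_dep (t : ℕ) : DepOn {x, y, z} (CT c M B x y z t) := by
  intro a b hab ha
  have h1 := hab x (by simp)
  have h2 := hab y (by simp)
  have h3 := hab z (by simp)
  simp only [CT, Set.mem_ofPred_eq] at ha ⊢
  rwa [h1, h2, h3] at ha

theorem CT_add (hB : GoodB M B) (hxy : x ≠ y) (hxz : x ≠ z) (hyz : y ≠ z) {s : ℕ} (hs : 1 ≤ s) :
    CT c M B x y z s + CT c M B x y z 1 = CT c M B x y z (s + 1) := by
  ext a
  constructor
  · rintro ⟨b, hb, b', hb', rfl⟩
    exact TT.add hB hb hb'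
  · intro ha
    obtain ⟨x₁, y₁, K₁, hx, hy, hK, h1, h2⟩ := TT.split hB hs ha
    set b : σ →₀ ℕ := Finsupp.single x x₁ + Finsupp.single y y₁ + Finsupp.single z K₁ with hb
    have bx : b x = x₁ := by
      simp [hb, hxy.symm, hxz.symm]
    have by' : b y = y₁ := by
      simp [hb, hxy, hyz.symm]
    have bz : b z = K₁ := by
      simp [hb, hxz, hyz]
    have hle : b ≤ a := by
      intro v
      by_cases h1 : v = x
      · rw [h1, bx]; exact hx
      by_cases h2 : v = y
      · rw [h2, by']; exact hy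
      by_cases h3 : v = z
      · rw [h3, bz]; exact hK
      have : b v = 0 := by
        simp [hb, Ne.symm h1, Ne.symm h2, Ne.symm h3]
      rw [this]; exact Nat.zero_le _
    refine ⟨a - b, ?_, b, ?_, tsub_add_cancel_of_le hle⟩
    · show TT c M B s ((a - b) x) ((a - b) y) ((a - b) z)
      rw [Finsupp.tsub_apply, Finsupp.tsub_apply, Finsupp.tsub_apply, bx, by', bz]
      exact h2
    · show TT c M B 1 (b x) (b y) (b z)
      rw [bx, by', bz]
      exact h1

theorem CT_pow (hB : GoodB M B) (hxy : x ≠ y) (hxz : x ≠ z) (hyz : y ≠ z) {t : ℕ} (ht : 1 ≤ t) :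
    mono k (CT c M B x y z 1) ^ t = mono k (CT c M B x y z t) := by
  induction t, ht using Nat.le_induction with
  | base => rw [pow_one]
  | succ s hs ih => rw [pow_succ, ih, mono_mul, CT_add hB hxy hxz hyz hs]

theorem CT_zero (hB : GoodB M B) : (0 : σ →₀ ℕ) ∉ CT c M B x y z 1 := by
  rintro ⟨h, -⟩
  have := hB.two_le
  simp at h
  omega

theorem CT_single (hxy : x ≠ y) (hxz : x ≠ z) (hyz : y ≠ z) {v : σ} (hv : v ∈ ({x, y, z} : Set σ)) :
    ∃ N, Finsupp.single v N ∈ CT c M B x y z 1 := by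
  refine ⟨2 * c + 2 * M + 1, ?_⟩
  show TT c M B 1 (Finsupp.single v _ x) (Finsupp.single v _ y) (Finsupp.single v _ z)
  rcases hv with rfl | rfl | rfl
  · rw [Finsupp.single_eq_same, Finsupp.single_eq_of_ne hxy.symm, Finsupp.single_eq_of_ne hxz.symm]
    refine ⟨by omega, by omega, by omega⟩
  · rw [Finsupp.single_eq_same, Finsupp.single_eq_of_ne hxy, Finsupp.single_eq_of_ne hyz.symm]
    refine ⟨by omega, by omega, by omega⟩
  · rw [Finsupp.single_eq_same, Finsupp.single_eq_of_ne hxz, Finsupp.single_eq_of_ne hyz]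
    refine ⟨by omega, by omega, by omega⟩

end Pool.Agent.H62
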