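import Mathlib
import Pool.Agent.H62.Base
import Pool.Agent.H62.PowIdeal

set_option autoImplicit false
set_option linter.unusedSectionVars false

namespace Pool.Agent.H62

/-- Parameters. -/
structure Par where mkPar ::
  /-- the function -/
  g : ℕ → ℕ
  /-- the period -/
  P : ℕ
  /-- number of rows -/
  m : ℕ
  hP : 1 ≤ P
  hper : ∀ t, P ≤ t → g (t + P) = g t
  hm : ∀ t, g t ≤ m
  hg : ∀ t, 1 ≤ t → 2 ≤ g t

namespace Par

variable (A : Par)

/-- ratio -/
def Pi : ℕ := 4 * A.P ^ 2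
/-- row step -/
def mu (k : ℕ) : ℕ := A.Pi ^ (k + 1)
/-- modulus -/
def M (k : ℕ) : ℕ := A.P * A.mu k
/-- top -/
def C : ℕ := A.Pi ^ (A.m + 1)
/-- corner -/
def c (k : ℕ) : ℕ := A.C - A.mu k

/-- diagonal bad positions -/
def E (k η : ℕ) : Prop :=
  (1 ≤ η % A.mu k ∧ η % A.mu k < A.P ∧ η / A.mu k = η % A.mu k ∧ k + 1 < A.g (η % A.mu k)) ∨
  (A.P ≤ η % A.mu k ∧ η % A.mu k < 2 * A.P ∧ (η / A.mu k) % A.P = (η % A.mu k) % A.P ∧
    k + 1 < A.g (η % A.mu k))

/-- off-diagonal bad positions -/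
def L (k η : ℕ) : Prop :=
  A.P ≤ η % A.mu k ∧ η % A.mu k < 2 * A.P ∧ η / A.mu k = η % A.mu k - A.P ∧
    k + 1 < A.g (η % A.mu k)

theorem P_le_sq : A.P ≤ A.P ^ 2 := by
  have := A.hP
  nlinarith

theorem Pi_ge : 2 * A.P + 2 ≤ A.Pi := by
  have := A.P_le_sq
  have := A.hP
  unfold Pi; omega

theorem Pi_pos : 0 < A.Pi := by have := A.Pi_ge; omega

theorem Pi_le_mu (k : ℕ) : A.Pi ≤ A.mu k := by
  unfold mu
  calc A.Pi = A.Pi ^ 1 := (pow_one _).symm
    _ ≤ A.Pi ^ (k + 1) := Nat.pow_le_pow_right A.Pi_pos (by omega)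

theorem mu_ge (k : ℕ) : 2 * A.P + 2 ≤ A.mu k := A.Pi_ge.trans (A.Pi_le_mu k)

theorem mu_pos (k : ℕ) : 0 < A.mu k := by have := A.mu_ge k; omega

theorem mu_le_C {k : ℕ} (hk : k < A.m) : A.mu k ≤ A.C :=
  Nat.pow_le_pow_right A.Pi_pos (by omega)

theorem dvd_mu (k : ℕ) : 2 * A.P ∣ A.mu k := by
  refine Dvd.dvd.trans ?_ (dvd_pow_self A.Pi (by omega))
  refine ⟨2 * A.P, ?_⟩
  unfold Pi; ring

theorem L_E {k η : ℕ} (h : A.L k η) : A.E k η := by
  obtain ⟨h1, h2, h3, h4⟩ := h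
  refine Or.inr ⟨h1, h2, ?_, h4⟩
  rw [h3]
  conv_rhs => rw [show η % A.mu k = (η % A.mu k - A.P) + A.P by omega]
  rw [Nat.add_mod_right]

theorem add_div (k η : ℕ) : (η + A.M k) / A.mu k = η / A.mu k + A.P := by
  rw [M, mul_comm, Nat.add_mul_div_left _ _ (A.mu_pos k)]

theorem add_mod (k η : ℕ) : (η + A.M k) % A.mu k = η % A.mu k := by
  rw [M, mul_comm, Nat.add_mul_mod_self_left]

theorem two_le_M (k : ℕ) : 2 ≤ A.M k := by
  have h1 := A.mu_ge k
  have h2 := A.hP
  unfold M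
  nlinarith

theorem good_E (k : ℕ) : GoodB (A.M k) (A.E k) := by
  have hP := A.hP
  refine ⟨A.two_le_M k, ?_, ?_, ?_⟩
  · rintro (⟨h, _⟩ | ⟨h, _⟩)
    · rw [Nat.zero_mod] at h; omega
    · rw [Nat.zero_mod] at h; omega
  · intro η h1 h2
    apply h1
    rcases h2 with ⟨a1, a2, a3, a4⟩ | ⟨a1, a2, a3, a4⟩
    · rw [A.add_mod] at a1 a2 a3 a4
      rw [A.add_div] at a3
      have := Nat.zero_le (η / A.mu k)
      omega
    · rw [A.add_mod] at a1 a2 a3 a4
      rw [A.add_div, Nat.add_mod_right] at a3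
      exact Or.inr ⟨a1, a2, a3, a4⟩
  · intro η h1 hle h2
    apply h1
    obtain ⟨ζ, rfl⟩ : ∃ ζ, η = ζ + A.M k := ⟨η - A.M k, by omega⟩
    rw [Nat.add_sub_cancel] at h2
    have hs : A.P ≤ ζ / A.mu k := by
      rw [Nat.le_div_iff_mul_le (A.mu_pos k)]
      change A.M k ≤ ζ
      omega
    rcases h2 with ⟨a1, a2, a3, a4⟩ | ⟨a1, a2, a3, a4⟩
    · omega
    · refine Or.inr ?_
      rw [A.add_mod, A.add_div, Nat.add_mod_right]
      exact ⟨a1, a2, a3, a4⟩

theorem good_L (k : ℕ) : GoodB (A.M k) (A.L k) := by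
  have hP := A.hP
  refine ⟨A.two_le_M k, ?_, ?_, ?_⟩
  · rintro ⟨h, _⟩
    rw [Nat.zero_mod] at h; omega
  · rintro η h1 ⟨a1, a2, a3, a4⟩
    rw [A.add_mod] at a1 a2 a3 a4
    rw [A.add_div] at a3
    have := Nat.zero_le (η / A.mu k)
    omega
  · intro η h1 hle h2
    obtain ⟨ζ, rfl⟩ : ∃ ζ, η = ζ + A.M k := ⟨η - A.M k, by omega⟩
    rw [Nat.add_sub_cancel] at h2
    have hs : A.P ≤ ζ / A.mu k := by
      rw [Nat.le_div_iff_mul_le (A.mu_pos k)]
      change A.M k ≤ ζ
      omega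
    obtain ⟨a1, a2, a3, a4⟩ := h2
    omega

/-- Bad positions stay away from the end of the face. -/
theorem not_bad_end {k t K e : ℕ} (h : e + K = 2 * (A.M k * t)) (he : 0 < e) :
    ¬ Bad (A.M k) (A.E k) K e := by
  rintro (⟨hK, hd⟩ | ⟨hK, hb⟩)
  · subst hK
    apply hd
    rw [show e = A.M k * (2 * t) by rw [← Nat.add_zero e, h]; ring]
    exact dvd_mul_right _ _
  · subst hK
    have hmu := A.mu_ge k
    have h1 : e % A.mu k = A.mu k - 1 := by
      have ht : 0 < A.P * (2 * t) := by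
        rcases Nat.eq_zero_or_pos (A.P * (2 * t)) with h0 | h0
        · exfalso
          have : 2 * (A.M k * t) = A.mu k * (A.P * (2 * t)) := by unfold M; ring
          rw [h0] at this
          omega
        · exact h0
      obtain ⟨n, hn⟩ : ∃ n, A.P * (2 * t) = n + 1 := ⟨A.P * (2 * t) - 1, by omega⟩
      have h2 : e = (A.mu k - 1) + A.mu k * n := by
        have : 2 * (A.M k * t) = A.mu k * (A.P * (2 * t)) := by unfold M; ring
        rw [hn, mul_add, mul_one] at this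
        omega
      rw [h2, Nat.add_mul_mod_self_left]
      exact Nat.mod_eq_of_lt (by omega)
    rcases hb with ⟨_, h2, _⟩ | ⟨_, h2, _⟩
    · rw [h1] at h2; omega
    · rw [h1] at h2; omega

/-- threshold -/
def thr (t k y K : ℕ) : ℕ :=
  max ((A.c k + 2 * A.M k) * t - y - K) ((2 * A.c k + 2 * A.M k) * t - 2 * y - K)

/-- bad region -/
def reg (B : ℕ → ℕ → Prop) (t k y K : ℕ) : Prop :=
  A.c k * t < y ∧ y + K < (A.c k + 2 * A.M k) * t ∧ Bad (A.M k) (B k) K (y - A.c k * t)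

theorem ex1 (t k : ℕ) : (A.c k + 2 * A.M k) * t = A.c k * t + 2 * (A.M k * t) := by ring
theorem ex2 (t k : ℕ) : (2 * A.c k + 2 * A.M k) * t = 2 * (A.c k * t) + 2 * (A.M k * t) := by ring

theorem thr_eq {t k y K : ℕ} (h : A.c k * t < y) :
    A.thr t k y K = A.c k * t + 2 * (A.M k * t) - y - K := by
  unfold thr
  rw [A.ex1, A.ex2]
  omega

/-- The data at a given level. -/
def dat (t : ℕ) : Dat (Fin A.m) where
  a k y K := A.thr t k y K
  bE k y K := A.reg A.E t k y K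
  bL k y K := A.reg A.L t k y K
  anti := by
    intro k y K y' K' h1 h2
    simp only [thr, A.ex1, A.ex2]
    omega
  sub := by
    rintro k y K ⟨h1, h2, h3⟩
    refine ⟨h1, h2, ?_⟩
    rcases h3 with ⟨hK, h⟩ | ⟨hK, h⟩
    · exact Or.inl ⟨hK, h⟩
    · exact Or.inr ⟨hK, A.L_E h⟩
  down := by
    rintro k y K y' K' ⟨h1, h2, -⟩ h3 h4 h5
    rw [A.ex1] at h2
    rw [A.thr_eq h1]
    simp only [thr, A.ex1, A.ex2]
    omega
  up := by
    rintro k y K y' K' ⟨h1, h2, -⟩ h3 h4 h5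
    rw [A.ex1] at h2
    rw [A.thr_eq h1, A.thr_eq (h1.trans_le h3)]
    omega
  exY := by
    refine ⟨∑ k : Fin A.m, (2 * (A.c k * t) + 2 * (A.M k * t)), fun k => ?_⟩
    have h := Finset.single_le_sum (f := fun k : Fin A.m => 2 * (A.c k * t) + 2 * (A.M k * t))
      (fun _ _ => Nat.zero_le _) (Finset.mem_univ k)
    simp only [thr, A.ex1, A.ex2]
    omega
  exK := by
    refine ⟨∑ k : Fin A.m, (2 * (A.c k * t) + 2 * (A.M k * t)), fun k => ?_⟩
    have h := Finset.single_le_sum (f := fun k : Fin A.m => 2 * (A.c k * t) + 2 * (A.M k * t))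
      (fun _ _ => Nat.zero_le _) (Finset.mem_univ k)
    simp only [thr, A.ex1, A.ex2]
    omega

theorem g_congr {a b : ℕ} (ha : A.P ≤ a) (hb : A.P ≤ b) (hab : a % A.P = b % A.P) :
    A.g a = A.g b := by
  have key : ∀ r n, A.g (A.P + r + A.P * n) = A.g (A.P + r) := by
    intro r n
    induction n with
    | zero => simp
    | succ n ih =>
      rw [Nat.mul_succ, ← add_assoc, A.hper _ (by omega), ih]
  have hh : ∀ a, A.P ≤ a → A.g a = A.g (A.P + a % A.P) := by
    intro a ha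
    have h1 := Nat.mod_add_div a A.P
    have h2 : 1 ≤ a / A.P := by
      rw [Nat.le_div_iff_mul_le (by have := A.hP; omega)]
      omega
    obtain ⟨n, hn⟩ : ∃ n, a / A.P = n + 1 := ⟨a / A.P - 1, by omega⟩
    rw [hn, Nat.mul_succ] at h1
    conv_lhs => rw [← h1, show a % A.P + (A.P * n + A.P) = A.P + a % A.P + A.P * n by ring]
    exact key _ _
  rw [hh a ha, hh b hb, hab]

theorem c_mul {k : ℕ} (hk : k < A.m) (t : ℕ) : A.c k * t + A.mu k * t = A.C * t := by
  rw [← add_mul]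
  congr 1
  have := A.mu_le_C hk
  unfold c; omega

/-- The smaller of two rows. -/
theorem small_row {k l t s s' : ℕ} (hkl : k < l)
    (heq : A.mu k * s + A.mu l * t = A.mu l * s' + A.mu k * t) :
    s % A.P = t % A.P ∧ (t < A.P → s < 2 * A.P * A.P → s = t) := by
  obtain ⟨j, rfl⟩ : ∃ j, l = k + 1 + j := ⟨l - (k + 1), by omega⟩
  have hmul : A.mu (k + 1 + j) = A.mu k * (A.Pi * A.Pi ^ j) := by
    unfold mu
    rw [show k + 1 + j + 1 = (k + 1) + (j + 1) by ring, pow_add A.Pi (k + 1) (j + 1),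
      pow_succ A.Pi j, mul_comm (A.Pi ^ j)]
  have h1 : (s : ℤ) - t = (A.Pi : ℤ) * ((A.Pi : ℤ) ^ j * ((s' : ℤ) - t)) := by
    have hmu : (A.mu k : ℤ) ≠ 0 := by
      have := A.mu_pos k
      omega
    apply mul_left_cancel₀ hmu
    have h2 : (A.mu k : ℤ) * s + A.mu (k + 1 + j) * t = A.mu (k + 1 + j) * s' + A.mu k * t := by
      exact_mod_cast heq
    rw [hmul] at h2
    push_cast at h2
    linear_combination h2
  set n : ℤ := (A.Pi : ℤ) ^ j * ((s' : ℤ) - t) with hn
  have hPi : (A.Pi : ℤ) = 4 * A.P ^ 2 := by unfold Pi; push_cast; ring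
  constructor
  · have h3 : (s : ℤ) = t + A.P * (4 * A.P * n) := by
      rw [hPi] at h1
      linear_combination h1
    have h4 : (s : ℤ) % A.P = (t : ℤ) % A.P := by
      rw [h3, Int.add_mul_emod_self_left]
    exact_mod_cast h4
  · intro ht hs
    have hP := A.hP
    have hPP : (A.P : ℤ) ≤ (A.P : ℤ) ^ 2 := by exact_mod_cast A.P_le_sq
    have hs' : (s : ℤ) < 2 * (A.P : ℤ) ^ 2 := by
      have : (s : ℤ) < ((2 * A.P * A.P : ℕ) : ℤ) := by exact_mod_cast hs
      push_cast at this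
      nlinarith
    have hn0 : n = 0 := by
      rcases lt_trichotomy n 0 with h | h | h
      · exfalso
        have h5 : (A.Pi : ℤ) * n ≤ -(A.Pi : ℤ) := by
          have : (0 : ℤ) < A.Pi := by have := A.Pi_pos; omega
          nlinarith
        rw [hPi] at h5 h1
        have : (t : ℤ) < A.P := by exact_mod_cast ht
        nlinarith
      · exact h
      · exfalso
        have h5 : (A.Pi : ℤ) ≤ (A.Pi : ℤ) * n := by
          have : (0 : ℤ) < A.Pi := by have := A.Pi_pos; omega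
          nlinarith
        rw [hPi] at h5 h1
        nlinarith
    rw [hn0] at h1
    omega

theorem pair {k l t y : ℕ} (hk : k < A.m) (hl : l < A.m) (hkl : k ≠ l)
    (h1 : A.reg A.E t k y 1) (h1' : ¬ A.reg A.L t k y 1) (h2 : A.reg A.E t l y 1)
    (h2' : ¬ A.reg A.L t l y 1) : k + 1 < A.g t := by
  obtain ⟨a1, a2, a3⟩ := h1
  obtain ⟨b1, b2, b3⟩ := h2
  have a4 : A.E k (y - A.c k * t) := by
    rcases a3 with ⟨h, _⟩ | ⟨_, h⟩
    · omega
    · exact h
  have b4 : A.E l (y - A.c l * t) := by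
    rcases b3 with ⟨h, _⟩ | ⟨_, h⟩
    · omega
    · exact h
  have a5 : ¬ A.L k (y - A.c k * t) := fun h => h1' ⟨a1, a2, Or.inr ⟨rfl, h⟩⟩
  have b5 : ¬ A.L l (y - A.c l * t) := fun h => h2' ⟨b1, b2, Or.inr ⟨rfl, h⟩⟩
  have hck := A.c_mul hk t
  have hcl := A.c_mul hl t
  have hsum : (y - A.c k * t) + A.mu l * t = (y - A.c l * t) + A.mu k * t := by omega
  have a6 : y - A.c k * t < 2 * (A.M k * t) := by
    rw [A.ex1] at a2; omega
  have b6 : y - A.c l * t < 2 * (A.M l * t) := by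
    rw [A.ex1] at b2; omega
  generalize hη : y - A.c k * t = η at *
  generalize hζ : y - A.c l * t = ζ at *
  have hη' := Nat.div_add_mod η (A.mu k)
  have hζ' := Nat.div_add_mod ζ (A.mu l)
  have hs : η / A.mu k < 2 * A.P * t := by
    rw [Nat.div_lt_iff_lt_mul (A.mu_pos k)]
    calc η < 2 * (A.M k * t) := a6
      _ = 2 * A.P * t * A.mu k := by unfold M; ring
  have hs' : ζ / A.mu l < 2 * A.P * t := by
    rw [Nat.div_lt_iff_lt_mul (A.mu_pos l)]
    calc ζ < 2 * (A.M l * t) := b6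
      _ = 2 * A.P * t * A.mu l := by unfold M; ring
  have hrk : η % A.mu k < 2 * A.P := by
    have := A.hP
    rcases a4 with ⟨_, h, _⟩ | ⟨_, h, _⟩ <;> omega
  have hrl : ζ % A.mu l < 2 * A.P := by
    have := A.hP
    rcases b4 with ⟨_, h, _⟩ | ⟨_, h, _⟩ <;> omega
  have hmod : η % A.mu k = ζ % A.mu l := by
    have e1 : η % (2 * A.P) = η % A.mu k := by
      rw [← Nat.mod_mod_of_dvd η (A.dvd_mu k), Nat.mod_eq_of_lt hrk]
    have e2 : ζ % (2 * A.P) = ζ % A.mu l := by
      rw [← Nat.mod_mod_of_dvd ζ (A.dvd_mu l), Nat.mod_eq_of_lt hrl]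
    have e3 : (η + A.mu l * t) % (2 * A.P) = η % (2 * A.P) := by
      obtain ⟨n, hn⟩ := A.dvd_mu l
      rw [hn, mul_assoc, Nat.add_mul_mod_self_left]
    have e4 : (ζ + A.mu k * t) % (2 * A.P) = ζ % (2 * A.P) := by
      obtain ⟨n, hn⟩ := A.dvd_mu k
      rw [hn, mul_assoc, Nat.add_mul_mod_self_left]
    rw [← e1, ← e2, ← e3, ← e4, hsum]
  have heq : A.mu k * (η / A.mu k) + A.mu l * t = A.mu l * (ζ / A.mu l) + A.mu k * t := by
    omega
  unfold E at a4 b4
  unfold L at a5 b5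
  rw [hmod] at a4 a5
  generalize ζ % A.mu l = ρ at *
  generalize η / A.mu k = s at *
  generalize ζ / A.mu l = s' at *
  have hmune : A.mu k ≠ A.mu l := by
    intro h
    have hPi : 2 ≤ A.Pi := by have := A.Pi_ge; omega
    have := Nat.pow_right_injective hPi h
    omega
  rcases a4 with ⟨c1, c2, c3, c4⟩ | ⟨c1, c2, c3, c4⟩
  · rcases b4 with ⟨d1, d2, d3, d4⟩ | ⟨d1, d2, d3, d4⟩
    · rw [c3, d3] at heq
      have : ρ = t := by
        by_contra hne
        apply hmune
        have h3 : ((A.mu k : ℤ) - A.mu l) * ((ρ : ℤ) - t) = 0 := by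
          have : (A.mu k : ℤ) * ρ + A.mu l * t = A.mu l * ρ + A.mu k * t := by exact_mod_cast heq
          linear_combination this
        rcases mul_eq_zero.1 h3 with h | h
        · exact_mod_cast sub_eq_zero.1 h
        · exact absurd (by exact_mod_cast sub_eq_zero.1 h) hne
      rwa [this] at c4
    · omega
  · rcases b4 with ⟨d1, d2, d3, d4⟩ | ⟨d1, d2, d3, d4⟩
    · omega
    · have hP := A.hP
      have main : t % A.P = ρ % A.P ∧ (t < A.P → s = t) := by
        have hlt : ∀ r, t < A.P → r < 2 * A.P * t → r < 2 * A.P * A.P := by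
          intro r ht hr
          exact hr.trans_le (Nat.mul_le_mul_left _ ht.le)
        rcases lt_or_gt_of_ne hkl with h | h
        · obtain ⟨q1, q2⟩ := A.small_row h heq
          exact ⟨by rw [← q1, c3], fun ht => q2 ht (hlt _ ht hs)⟩
        · obtain ⟨q1, q2⟩ := A.small_row h heq.symm
          refine ⟨by rw [← q1, d3], fun ht => ?_⟩
          have h3 := q2 ht (hlt _ ht hs')
          rw [h3] at heq
          have h4 : A.mu k * s = A.mu k * t := by omega
          exact Nat.eq_of_mul_eq_mul_left (A.mu_pos k) h4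
      obtain ⟨m1, m2⟩ := main
      by_cases ht : t < A.P
      · exfalso
        apply a5
        refine ⟨c1, c2, ?_, c4⟩
        rw [m2 ht]
        rw [Nat.mod_eq_of_lt ht] at m1
        rw [m1, show ρ % A.P = (ρ - A.P) % A.P from ?_]
        · exact Nat.mod_eq_of_lt (by omega)
        · conv_lhs => rw [show ρ = (ρ - A.P) + A.P by omega]
          rw [Nat.add_mod_right]
      · rw [A.g_congr (a := t) (b := ρ) (by omega) c1 m1]
        exact c4

theorem card_filter (t : ℕ) (ht : 1 ≤ t) :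
    (Finset.univ.filter (fun k : Fin A.m => (k : ℕ) + 1 < A.g t)).card + 1 = A.g t := by
  have h1 := A.hm t
  have h2 := A.hg t ht
  have h3 : (Finset.univ.filter (fun k : Fin A.m => (k : ℕ) + 1 < A.g t)).card =
      (Finset.range (A.g t - 1)).card := by
    apply Finset.card_bij (fun (k : Fin A.m) _ => (k : ℕ))
    · intro k hk
      rw [Finset.mem_filter] at hk
      rw [Finset.mem_range]
      omega
    · intro k _ l _ h
      exact Fin.ext h
    · intro n hn
      rw [Finset.mem_range] at hn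
      exact ⟨⟨n, by omega⟩, by rw [Finset.mem_filter]; exact ⟨Finset.mem_univ _, by simp; omega⟩, rfl⟩
  rw [h3, Finset.card_range]
  omega

theorem card_V (t : ℕ) (ht : 1 ≤ t) (y K : ℕ) : ((A.dat t).V y K).card + 1 ≤ A.g t := by
  have h2 := A.hg t ht
  by_cases hc : ((A.dat t).V y K).card ≤ 1
  · omega
  · push Not at hc
    have hK : K = 1 := by
      have hne : ((A.dat t).V y K).Nonempty := by rw [← Finset.card_pos]; omega
      obtain ⟨k, hk⟩ := hne
      rw [Dat.mem_V] at hk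
      obtain ⟨⟨h3, h4, h5⟩, h6⟩ := hk
      rcases h5 with ⟨hK, h7⟩ | ⟨hK, _⟩
      · exact absurd ⟨h3, h4, Or.inl ⟨hK, h7⟩⟩ h6
      · exact hK
    subst hK
    rw [← A.card_filter t ht]
    apply Nat.add_le_add_right
    apply Finset.card_le_card
    intro k hk
    rw [Finset.mem_filter]
    refine ⟨Finset.mem_univ _, ?_⟩
    obtain ⟨l, hl, hlk⟩ := Finset.exists_mem_ne hc k
    rw [Dat.mem_V] at hk hl
    exact A.pair k.2 l.2 (fun h => hlk (Fin.ext h.symm)) hk.1 hk.2 hl.1 hl.2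

/-- designated offset -/
def lam (t : ℕ) : ℕ := if t < A.P then t else A.P + t % A.P

theorem lam_pos {t : ℕ} (ht : 1 ≤ t) : 1 ≤ A.lam t := by
  have := A.hP
  unfold lam
  split_ifs <;> omega

theorem lam_lt (t : ℕ) : A.lam t < 2 * A.P := by
  have := A.hP
  have := Nat.mod_lt t (by omega : A.P > 0)
  unfold lam
  split_ifs <;> omega

theorem spec (t : ℕ) (ht : 1 ≤ t) (k : Fin A.m) :
    ((A.dat t).bE k (A.C * t + A.lam t) 1 ↔ (k : ℕ) + 1 < A.g t) ∧
    ¬ (A.dat t).bL k (A.C * t + A.lam t) 1 := by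
  have hP := A.hP
  have hck := A.c_mul k.2 t
  have hl1 := A.lam_pos ht
  have hl2 := A.lam_lt t
  have hmu := A.mu_ge k
  have hη : A.C * t + A.lam t - A.c k * t = A.mu k * t + A.lam t := by omega
  have hdiv : (A.mu k * t + A.lam t) / A.mu k = t := by
    rw [Nat.mul_add_div (A.mu_pos k), Nat.div_eq_of_lt (by omega), add_zero]
  have hmod : (A.mu k * t + A.lam t) % A.mu k = A.lam t := by
    rw [Nat.mul_add_mod, Nat.mod_eq_of_lt (by omega)]
  have hlt1 : A.c k * t < A.C * t + A.lam t := by omega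
  have hlt2 : A.C * t + A.lam t + 1 < (A.c k + 2 * A.M k) * t := by
    rw [A.ex1]
    have h1 : A.mu k * t ≤ A.M k * t := by
      apply Nat.mul_le_mul_right
      unfold M
      exact Nat.le_mul_of_pos_left _ (by omega)
    have h2 : A.mu k ≤ A.mu k * t := Nat.le_mul_of_pos_right _ (by omega)
    omega
  have hE : A.E k (A.mu k * t + A.lam t) ↔ (k : ℕ) + 1 < A.g t := by
    unfold E
    rw [hdiv, hmod]
    unfold lam
    split_ifs with h
    · constructor
      · rintro (⟨_, _, _, h4⟩ | ⟨h1, _⟩)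
        · exact h4
        · omega
      · intro h4
        exact Or.inl ⟨ht, h, rfl, h4⟩
    · have hg : A.g (A.P + t % A.P) = A.g t :=
        A.g_congr (by omega) (by omega) (by rw [Nat.add_mod_left, Nat.mod_mod])
      rw [hg]
      constructor
      · rintro (⟨_, h2, _⟩ | ⟨_, _, _, h4⟩)
        · omega
        · exact h4
      · intro h4
        refine Or.inr ⟨by omega, ?_, ?_, h4⟩
        · have := Nat.mod_lt t (by omega : A.P > 0)
          omega
        · rw [Nat.add_mod_left, Nat.mod_mod]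
  have hL : ¬ A.L k (A.mu k * t + A.lam t) := by
    unfold L
    rw [hdiv, hmod]
    unfold lam
    have := Nat.mod_lt t (by omega : A.P > 0)
    split_ifs with h
    · rintro ⟨h1, _⟩
      omega
    · rintro ⟨_, _, h1, _⟩
      omega
  constructor
  · constructor
    · rintro ⟨_, _, h3⟩
      rcases h3 with ⟨h, _⟩ | ⟨_, h⟩
      · omega
      · rw [hη] at h
        exact hE.1 h
    · intro h
      refine ⟨hlt1, hlt2, Or.inr ⟨rfl, ?_⟩⟩
      rw [hη]
      exact hE.2 h
  · rintro ⟨_, _, h3⟩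
    rcases h3 with ⟨h, _⟩ | ⟨_, h⟩
    · omega
    · rw [hη] at h
      exact hL h

theorem card_V_spec (t : ℕ) (ht : 1 ≤ t) :
    ((A.dat t).V (A.C * t + A.lam t) 1).card + 1 = A.g t := by
  rw [← A.card_filter t ht]
  congr 2
  ext k
  rw [Dat.mem_V, Finset.mem_filter]
  have := A.spec t ht k
  constructor
  · rintro ⟨h, _⟩
    exact ⟨Finset.mem_univ _, this.1.1 h⟩
  · rintro ⟨_, h⟩
    exact ⟨this.1.2 h, this.2⟩

end Par

end Pool.Agent.H62
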