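import Mathlib
import Pool.Agent.H62.Num

set_option autoImplicit false
set_option linter.unusedSectionVars false

namespace Pool.Agent.H62

open MvPolynomial

namespace Par

variable (A : Par)

/-- bad positions for the pair -/
def B (i j : Fin A.m) : ℕ → Prop := if i = j then A.E i else A.L i

theorem good_B (i j : Fin A.m) : GoodB (A.M i) (A.B i j) := by
  unfold B
  split_ifs
  · exact A.good_E i
  · exact A.good_L i

theorem B_E {i j : Fin A.m} {n : ℕ} (h : A.B i j n) : A.E i n := by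
  unfold B at h
  split_ifs at h
  · exact h
  · exact A.L_E h

section

variable {σ : Type} [Finite σ] (e : σ ≃ (Fin A.m ⊕ Fin A.m) ⊕ Unit)

/-- exponent sets -/
def Cset (t : ℕ) (p : Fin A.m × Fin A.m) : Set (σ →₀ ℕ) :=
  CT (A.c p.1) (A.M p.1) (A.B p.1 p.2) (cx e p.1) (cy e p.2) (cz e) t

theorem Cset_upper (t : ℕ) (p : Fin A.m × Fin A.m) : IsUpperSet (A.Cset e t p) := CT_upper t

variable [Nonempty (Fin A.m)]

theorem bad_iff (t : ℕ) (i j : Fin A.m) (y K : ℕ) : (A.dat t).bad i j y K ↔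
    A.c i * t < y ∧ y + K < (A.c i + 2 * A.M i) * t ∧ Bad (A.M i) (A.B i j) K (y - A.c i * t) := by
  unfold B Dat.bad
  by_cases h : i = j
  · rw [if_pos h]
    constructor
    · rintro (⟨_, h1⟩ | ⟨h1, _⟩)
      · exact h1
      · exact absurd h h1
    · intro h1
      exact Or.inl ⟨h, h1⟩
  · rw [if_neg h]
    constructor
    · rintro (⟨h1, _⟩ | ⟨_, h1⟩)
      · exact absurd h1 h
      · exact h1
    · intro h1
      exact Or.inr ⟨h, h1⟩

theorem inter_eq (t : ℕ) : (⋂ p, A.Cset e t p) = (A.dat t).Sset e := by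
  ext u
  rw [Set.mem_iInter]
  constructor
  · intro h
    have h' : ∀ i j : Fin A.m, TT (A.c i) (A.M i) (A.B i j) t (u (cx e i)) (u (cy e j)) (u (cz e)) :=
      fun i j => h (i, j)
    refine ⟨?_, ?_⟩
    · intro i
      obtain ⟨j, hj⟩ := exists_ymin e u
      obtain ⟨h1, h2, _⟩ := h' i j
      rw [hj] at h1 h2
      change A.thr t i _ _ ≤ _
      unfold thr
      omega
    · rintro i j ⟨h1, h2⟩
      rw [A.bad_iff] at h2
      obtain ⟨q1, q2, q3⟩ := h2
      obtain ⟨_, _, h3⟩ := h' i j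
      refine h3 ?_ q1 q3
      change _ = A.thr t i _ _ at h1
      rw [A.thr_eq q1] at h1
      rw [A.ex1] at q2 ⊢
      omega
  · rintro ⟨hB, hS⟩ ⟨i, j⟩
    have h1 : A.thr t i (ymin e u) (u (cz e)) ≤ u (cx e i) := hB i
    have h2 := ymin_le e u j
    unfold thr at h1
    refine ⟨by dsimp only; omega, by dsimp only; omega, ?_⟩
    intro h3 h4 h5
    dsimp only at h3 h4 h5
    refine hS i j ⟨?_, ?_⟩
    · change _ = A.thr t i _ _
      rw [A.thr_eq h4]
      rw [A.ex1] at h3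
      omega
    · rw [A.bad_iff]
      refine ⟨h4, ?_, h5⟩
      by_contra hge
      have h6 : u (cy e j) - A.c i * t + u (cz e) = 2 * (A.M i * t) := by
        rw [A.ex1] at h3 hge
        omega
      refine A.not_bad_end h6 (by omega) ?_
      rcases h5 with ⟨hK, h⟩ | ⟨hK, h⟩
      · exact Or.inl ⟨hK, h⟩
      · exact Or.inr ⟨hK, A.B_E h⟩

end

theorem final : ∃ (K : Type) (_ : Field K) (n : ℕ) (Q : Ideal (MvPolynomial (Fin n) K)),
    (∃ s : Set (Fin n →₀ ℕ),
        Q = Ideal.span ((fun m => MvPolynomial.monomial m (1 : K)) '' s)) ∧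
    ∀ t : ℕ, 1 ≤ t →
      ∃ J : Ideal (MvPolynomial (Fin n) K),
        (∀ f : MvPolynomial (Fin n) K,
            f ∈ J ↔ ∀ P ∈ Q.minimalPrimes, ∃ u : MvPolynomial (Fin n) K,
              u ∉ P ∧ u * f ∈ Q ^ t) ∧
        CategoryTheory.HasProjectiveDimensionLE
          (ModuleCat.of (MvPolynomial (Fin n) K) J) (A.g t) ∧
        ¬ CategoryTheory.HasProjectiveDimensionLE
          (ModuleCat.of (MvPolynomial (Fin n) K) J) (A.g t - 1) := by
  have hm : 0 < A.m := by
    have h1 := A.hm 1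
    have h2 := A.hg 1 le_rfl
    omega
  have : Nonempty (Fin A.m) := ⟨⟨0, hm⟩⟩
  let n := Fintype.card ((Fin A.m ⊕ Fin A.m) ⊕ Unit)
  let e : Fin n ≃ (Fin A.m ⊕ Fin A.m) ⊕ Unit := (Fintype.equivFin _).symm
  refine ⟨ℚ, inferInstance, n, ⨅ p, mono ℚ (A.Cset e 1 p), ⟨⋂ p, A.Cset e 1 p, ?_⟩, ?_⟩
  · rw [mono_iInf (A.Cset_upper e 1)]
    rfl
  · intro t ht
    refine ⟨mono ℚ ((A.dat t).Sset e), ?_, ?_, ?_⟩
    · intro f
      rw [← A.inter_eq e t, ← mono_iInf (A.Cset_upper e t)]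
      symm
      refine symb_iff (fun p : Fin A.m × Fin A.m => ({cx e p.1, cy e p.2, cz e} : Set (Fin n)))
        (A.Cset e 1) ?_ (A.Cset_upper e 1) (fun p => CT_dep 1) (fun p => CT_zero (A.good_B _ _))
        (fun p v hv => CT_single (cx_ne_cy e _ _) (cx_ne_cz e _) (cy_ne_cz e _) hv)
        (A.Cset e t) ?_ (A.Cset_upper e t) (fun p => CT_dep t) f
      · rintro ⟨i, j⟩ ⟨i', j'⟩ h
        have h1 : cx e i ∈ ({cx e i', cy e j', cz e} : Set (Fin n)) := h (Or.inl rfl)
        have h2 : cy e j ∈ ({cx e i', cy e j', cz e} : Set (Fin n)) := h (Or.inr (Or.inl rfl))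
        rcases h1 with h1 | h1 | h1
        · rcases h2 with h2 | h2 | h2
          · exact absurd h2.symm (cx_ne_cy e _ _)
          · rw [(cx_inj e).1 h1, (cy_inj e).1 h2]
          · exact absurd h2 (cy_ne_cz e _)
        · exact absurd h1 (cx_ne_cy e _ _)
        · exact absurd h1 (cx_ne_cz e _)
      · intro p
        exact CT_pow (A.good_B _ _) (cx_ne_cy e _ _) (cx_ne_cz e _) (cy_ne_cz e _) ht
    · exact (A.dat t).pdLT_Sset e (A.hg t ht) (A.card_V t ht)
    · have h1 := (A.dat t).not_pdLT_Sset (k := ℚ) e (A.hg t ht) (A.card_V t ht)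
        (fun i => (A.spec t ht i).2) (A.card_V_spec t ht)
      have h2 := A.hg t ht
      intro h
      apply h1
      have h3 : A.g t - 1 + 1 = A.g t := by omega
      have h4 : CategoryTheory.HasProjectiveDimensionLT
        (ModuleCat.of (MvPolynomial (Fin n) ℚ) (mono ℚ ((A.dat t).Sset e))) (A.g t - 1 + 1) := h
      rwa [h3] at h4

end Par

theorem bounded {g : ℕ → ℕ} {N p : ℕ} (hp : 0 < p) (h : ∀ t : ℕ, N ≤ t → g (t + p) = g t) :
    ∃ m, ∀ t, g t ≤ m := by
  refine ⟨∑ s ∈ Finset.range (N + p), g s, ?_⟩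
  intro t
  induction t using Nat.strong_induction_on with
  | _ t ih =>
    by_cases ht : t < N + p
    · exact Finset.single_le_sum (fun _ _ => Nat.zero_le _) (Finset.mem_range.2 ht)
    · have h1 := h (t - p) (by omega)
      rw [show t - p + p = t by omega] at h1
      rw [h1]
      exact ih (t - p) (by omega)

theorem period {g : ℕ → ℕ} {N p : ℕ} (h : ∀ t : ℕ, N ≤ t → g (t + p) = g t) (n t : ℕ)
    (ht : N ≤ t) : g (t + p * n) = g t := by
  induction n with
  | zero => simp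
  | succ n ih =>
    rw [Nat.mul_succ, ← add_assoc, h _ (by omega), ih]

end Pool.Agent.H62
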